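import Mathlib

/-!
# The exact strip formula: closed forms in the Szego variable (helper92)

`h = cos (8 x / 3) = h₀ (1 + t) / (1 - t)`, `h₀ = cos (π / 6)`; the honeycomb point `x = π / 16` is `t = 0`.
`S = 2 cos (2 x / 3) = √(2 + √(2 + 2 h))`.
-/

namespace P2F

noncomputable section

open Real

/-- `cos (π / 6)` -/
def h0 : ℝ := √3 / 2

/-- `h` as a function of `t` -/
def hh (t : ℝ) : ℝ := h0 * (1 + t) / (1 - t)

/-- `x` as a function of `t` -/
def xx (t : ℝ) : ℝ := 3 / 8 * arccos (hh t)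

/-- `S = 2 cos (2 x / 3)` -/
def SS (t : ℝ) : ℝ := √(2 + √(2 + 2 * hh t))

/-- the normalisation -/
def rho (t : ℝ) : ℝ := √(4 / (3 * h0)) * (1 - t) * sin (4 * xx t / 3)

/-- the quadratic form `H` -/
def H (c d : ℝ) : ℝ := c ^ 2 + d ^ 2 + √2 * c * d - 1 / 2

theorem h0_pos : 0 < h0 := by
  unfold h0
  positivity

theorem h0_sq : h0 ^ 2 = 3 / 4 := by
  unfold h0
  rw [div_pow, sq_sqrt (by norm_num : (0 : ℝ) ≤ 3)]
  norm_num

theorem h0_lt : h0 < 9 / 10 := by
  have := h0_sq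
  nlinarith [h0_pos]

theorem hh_zero : hh 0 = h0 := by
  unfold hh
  ring

theorem hh_pos {t : ℝ} (ht : |t| < 1 / 20) : 0 < hh t := by
  obtain ⟨h1, h2⟩ := abs_lt.1 ht
  unfold hh
  have := h0_pos
  apply div_pos
  · apply mul_pos this
    linarith
  · linarith

theorem hh_lt {t : ℝ} (ht : |t| < 1 / 20) : hh t < 1 := by
  obtain ⟨h1, h2⟩ := abs_lt.1 ht
  unfold hh
  have h3 := h0_pos
  have h4 := h0_lt
  have h5 : 0 < 1 - t := by linarith
  have h6 : h0 * (1 + t) ≤ 9 / 10 * (1 + t) := by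
    apply mul_le_mul_of_nonneg_right h4.le
    linarith
  rw [div_lt_one h5]
  linarith

theorem cos_xx {t : ℝ} (ht : |t| < 1 / 20) : cos (8 * xx t / 3) = hh t := by
  have h1 : 8 * xx t / 3 = arccos (hh t) := by
    unfold xx
    ring
  rw [h1, cos_arccos (by linarith [hh_pos ht]) (hh_lt ht).le]

theorem xx_pos {t : ℝ} (ht : |t| < 1 / 20) : 0 < xx t := by
  unfold xx
  have := arccos_pos.2 (hh_lt ht)
  linarith

theorem xx_lt {t : ℝ} (ht : |t| < 1 / 20) : xx t < 3 * π / 16 := by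
  unfold xx
  have := arccos_lt_pi_div_two.2 (hh_pos ht)
  linarith

theorem xx_zero : xx 0 = π / 16 := by
  unfold xx
  rw [hh_zero]
  unfold h0
  rw [← cos_pi_div_six, arccos_cos (by positivity) (by linarith [pi_pos])]
  ring

theorem SS_eq {t : ℝ} (ht : |t| < 1 / 20) : SS t = 2 * cos (2 * xx t / 3) := by
  have h1 := xx_pos ht
  have h2 := xx_lt ht
  have hpi := pi_pos
  have c1 : 0 < cos (2 * xx t / 3) := cos_pos_of_mem_Ioo ⟨by linarith, by linarith⟩
  have c2 : 0 < cos (4 * xx t / 3) := cos_pos_of_mem_Ioo ⟨by linarith, by linarith⟩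
  have e1 : 2 + 2 * hh t = (2 * cos (4 * xx t / 3)) ^ 2 := by
    rw [← cos_xx ht, show 8 * xx t / 3 = 2 * (4 * xx t / 3) by ring, cos_two_mul]
    ring
  have e2 : 2 + 2 * cos (4 * xx t / 3) = (2 * cos (2 * xx t / 3)) ^ 2 := by
    rw [show 4 * xx t / 3 = 2 * (2 * xx t / 3) by ring, cos_two_mul]
    ring
  unfold SS
  rw [e1, sqrt_sq (by positivity), e2, sqrt_sq (by positivity)]

theorem SS_pos (t : ℝ) : 0 < SS t := by
  unfold SS
  have := sqrt_nonneg (2 + 2 * hh t)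
  exact sqrt_pos.2 (by linarith)

theorem one_lt_SS (t : ℝ) : 1 < SS t := by
  unfold SS
  have := sqrt_nonneg (2 + 2 * hh t)
  rw [lt_sqrt (by norm_num)]
  linarith

theorem SS_sq (t : ℝ) : SS t ^ 2 = 2 + √(2 + 2 * hh t) := by
  unfold SS
  rw [sq_sqrt]
  have := sqrt_nonneg (2 + 2 * hh t)
  linarith

/-- `h` as a polynomial in `S` -/
theorem hh_eq {t : ℝ} (ht : |t| < 1 / 20) : hh t = SS t ^ 4 / 2 - 2 * SS t ^ 2 + 1 := by
  have h1 : SS t ^ 4 = (2 + √(2 + 2 * hh t)) ^ 2 := by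
    rw [← SS_sq t]
    ring
  have h2 : √(2 + 2 * hh t) ^ 2 = 2 + 2 * hh t := sq_sqrt (by linarith [hh_pos ht])
  rw [h1, SS_sq t]
  linarith [h2, show (2 + √(2 + 2 * hh t)) ^ 2 = 4 + 4 * √(2 + 2 * hh t) + √(2 + 2 * hh t) ^ 2 by ring]

/-- `cos 2 x` as a polynomial in `S` -/
theorem cos_two_xx {t : ℝ} (ht : |t| < 1 / 20) : cos (2 * xx t) = (SS t ^ 3 - 3 * SS t) / 2 := by
  rw [SS_eq ht, show 2 * xx t = 3 * (2 * xx t / 3) by ring, cos_three_mul,
    show 3 * (2 * xx t / 3) = 2 * xx t by ring]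
  ring

theorem sin_pos_43 {t : ℝ} (ht : |t| < 1 / 20) : 0 < sin (4 * xx t / 3) := by
  have h1 := xx_pos ht
  have h2 := xx_lt ht
  have hpi := pi_pos
  exact sin_pos_of_pos_of_lt_pi (by linarith) (by linarith)

theorem sin_pos_2 {t : ℝ} (ht : |t| < 1 / 20) : 0 < sin (2 * xx t) := by
  have h1 := xx_pos ht
  have h2 := xx_lt ht
  have hpi := pi_pos
  exact sin_pos_of_pos_of_lt_pi (by linarith) (by linarith)

/-- the quotient `sin 2 x / sin (4 x / 3)` -/
theorem sin_quot {t : ℝ} (ht : |t| < 1 / 20) :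
    sin (2 * xx t) = (SS t - 1 / SS t) * sin (4 * xx t / 3) := by
  have h1 := xx_pos ht
  have h2 := xx_lt ht
  have hpi := pi_pos
  have c1 : 0 < cos (2 * xx t / 3) := cos_pos_of_mem_Ioo ⟨by linarith, by linarith⟩
  rw [SS_eq ht, show 2 * xx t = 3 * (2 * xx t / 3) by ring, sin_three_mul,
    show 4 * xx t / 3 = 2 * (2 * xx t / 3) by ring, sin_two_mul,
    show 3 * (2 * xx t / 3) = 2 * xx t by ring]
  have h3 := sin_sq_add_cos_sq (2 * xx t / 3)
  field_simp
  have h4 : sin (2 * xx t / 3) ^ 2 = 1 - cos (2 * xx t / 3) ^ 2 := by linarith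
  linear_combination (-4 * sin (2 * xx t / 3)) * h4

theorem rho_pos {t : ℝ} (ht : |t| < 1 / 20) : 0 < rho t := by
  obtain ⟨h1, h2⟩ := abs_lt.1 ht
  unfold rho
  have := h0_pos
  have := sin_pos_43 ht
  have h3 : 0 < 1 - t := by linarith
  positivity

/-- the Szego kernel: the form of the weight `w₀ = 1 / cosh (3 π k / 8)` -/
theorem szego {t t' : ℝ} (ht : |t| < 1 / 20) (ht' : |t'| < 1 / 20) :
    8 / 3 * sin (4 * xx t / 3) * sin (4 * xx t' / 3) /
      (cos (8 * xx t / 3) + cos (8 * xx t' / 3)) = rho t * rho t' / (1 - t * t') := by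
  obtain ⟨h1, h2⟩ := abs_lt.1 ht
  obtain ⟨h3, h4⟩ := abs_lt.1 ht'
  have h5 : 0 < 1 - t := by linarith
  have h6 : 0 < 1 - t' := by linarith
  have h7 : 0 < 1 - t * t' := by nlinarith
  have h8 := h0_pos
  rw [cos_xx ht, cos_xx ht']
  unfold rho
  have e1 : √(4 / (3 * h0)) * √(4 / (3 * h0)) = 4 / (3 * h0) :=
    mul_self_sqrt (by positivity)
  have e2 : hh t + hh t' = 2 * h0 * (1 - t * t') / ((1 - t) * (1 - t')) := by
    unfold hh
    field_simp
    ring
  have e3 : √(4 / (3 * h0)) * (1 - t) * sin (4 * xx t / 3) *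
      (√(4 / (3 * h0)) * (1 - t') * sin (4 * xx t' / 3)) =
      4 / (3 * h0) * ((1 - t) * (1 - t') * sin (4 * xx t / 3) * sin (4 * xx t' / 3)) := by
    linear_combination ((1 - t) * (1 - t') * sin (4 * xx t / 3) * sin (4 * xx t' / 3)) * e1
  rw [e2, e3]
  field_simp
  ring

/-- the gauge factor: `gam t * gam t' / H` is the kernel of the weight `w` in the variable `t` -/
def gam (t : ℝ) : ℝ := √(√2) * sin (2 * xx t) / rho t

/-- the kernel of the weight `w = 1 / (cosh (π k / 8) + cosh (3 π k / 8))` -/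
theorem ker_w (t t' : ℝ) :
    √2 * sin (2 * xx t) * sin (2 * xx t') / H (cos (2 * xx t)) (cos (2 * xx t')) / (rho t * rho t') =
      gam t * gam t' / H (cos (2 * xx t)) (cos (2 * xx t')) := by
  unfold gam
  have e1 : √(√2) * √(√2) = √2 := mul_self_sqrt (sqrt_nonneg 2)
  calc _ = (√(√2) * √(√2)) * sin (2 * xx t) * sin (2 * xx t') /
        H (cos (2 * xx t)) (cos (2 * xx t')) / (rho t * rho t') := by rw [e1]
    _ = _ := by
      rw [div_div, div_mul_div_comm, div_div]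
      congr 1
      · ring
      · ring

/-- the constant of `gam` -/
def K1 : ℝ := √(√2) / √(4 / (3 * h0))

theorem K1_pos : 0 < K1 := by
  unfold K1
  have := h0_pos
  positivity

/-- closed form of `f₁` -/
theorem gam_eq {t : ℝ} (ht : |t| < 1 / 20) : gam t = K1 * (SS t - 1 / SS t) / (1 - t) := by
  obtain ⟨h1, h2⟩ := abs_lt.1 ht
  have h3 : 0 < 1 - t := by linarith
  have h4 := sin_pos_43 ht
  have h5 := h0_pos
  have h6 : 0 < √(4 / (3 * h0)) := by positivity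
  unfold gam
  rw [sin_quot ht]
  unfold rho K1
  field_simp

/-! ### the function `m_*` -/

/-- `2 cos (π / 8)` -/
def r1 : ℝ := 2 * cos (π / 8)

/-- `2 cos (3 π / 8)` -/
def r2 : ℝ := 2 * cos (3 * π / 8)

/-- `2 cos (π / 24)` -/
def s0 : ℝ := 2 * cos (π / 24)

/-- `2 cos (7 π / 24)` -/
def s1 : ℝ := 2 * cos (7 * π / 24)

/-- `2 cos (5 π / 24)` -/
def s2 : ℝ := 2 * cos (5 * π / 24)

/-- `- 2 cos (13 π / 24)` -/
def s3 : ℝ := - 2 * cos (13 * π / 24)

theorem r1_cube : r1 ^ 3 - 3 * r1 = r2 := by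
  unfold r1 r2
  rw [show 3 * π / 8 = 3 * (π / 8) by ring, cos_three_mul]
  ring

theorem r2_cube : r2 ^ 3 - 3 * r2 = - r1 := by
  unfold r1 r2
  have h : cos (3 * (3 * π / 8)) = - cos (π / 8) := by
    rw [show 3 * (3 * π / 8) = π / 8 + π by ring, cos_add_pi]
  rw [cos_three_mul] at h
  linarith

theorem r1_sq : r1 ^ 2 = 2 + √2 := by
  unfold r1
  have h := cos_two_mul (π / 8)
  rw [show 2 * (π / 8) = π / 4 by ring, cos_pi_div_four] at h
  linarith

theorem r2_sq : r2 ^ 2 = 2 - √2 := by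
  unfold r2
  have h := cos_two_mul (3 * π / 8)
  rw [show 2 * (3 * π / 8) = π - π / 4 by ring, cos_pi_sub, cos_pi_div_four] at h
  linarith

theorem r1_pos : 0 < r1 := by
  unfold r1
  have := pi_pos
  have : 0 < cos (π / 8) := cos_pos_of_mem_Ioo ⟨by linarith, by linarith⟩
  linarith

theorem r2_pos : 0 < r2 := by
  unfold r2
  have := pi_pos
  have : 0 < cos (3 * π / 8) := cos_pos_of_mem_Ioo ⟨by linarith, by linarith⟩
  linarith

theorem r1_mul_r2 : r1 * r2 = √2 := by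
  have h := r1_cube
  have h1 := r1_sq
  have h2 : r2 = r1 * (√2 - 1) := by
    rw [← h]
    have : r1 ^ 3 = r1 * r1 ^ 2 := by ring
    rw [this, h1]
    ring
  have h3 : √2 * √2 = 2 := mul_self_sqrt (by norm_num)
  rw [h2]
  calc r1 * (r1 * (√2 - 1)) = r1 ^ 2 * (√2 - 1) := by ring
    _ = √2 := by
      rw [h1]
      linarith [h3, show (2 + √2) * (√2 - 1) = √2 * √2 + √2 - 2 by ring]

/-- `2 cos a * 2 cos b` -/
theorem two_cos_mul (a b : ℝ) : (2 * cos a) * (2 * cos b) = 2 * cos (a - b) + 2 * cos (a + b) := by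
  rw [cos_sub, cos_add]
  ring

theorem cos_s12 : cos (7 * π / 12) = - cos (5 * π / 12) := by
  rw [show 7 * π / 12 = π - 5 * π / 12 by ring, cos_pi_sub]

/-- `B = (S - s₁) (S + s₀)`: sum of the roots -/
theorem s0_sub_s1 : s0 - s1 = r2 := by
  unfold s0 s1 r2
  have h := cos_sub_cos (π / 24) (7 * π / 24)
  rw [show (π / 24 + 7 * π / 24) / 2 = π / 6 by ring, show (π / 24 - 7 * π / 24) / 2 = - (π / 8) by ring,
    sin_neg, sin_pi_div_six] at h
  have h2 : cos (3 * π / 8) = sin (π / 8) := by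
    rw [show 3 * π / 8 = π / 2 - π / 8 by ring, cos_pi_div_two_sub]
  rw [h2]
  linarith

theorem s0_mul_s1 : s0 * s1 = 1 + √2 := by
  unfold s0 s1
  rw [two_cos_mul, show π / 24 - 7 * π / 24 = - (π / 4) by ring, show π / 24 + 7 * π / 24 = π / 3 by ring,
    cos_neg, cos_pi_div_four, cos_pi_div_three]
  ring

/-- `A = (S + s₂) (S + s₃)`: sum of the roots -/
theorem s2_add_s3 : s2 + s3 = r1 := by
  unfold s2 s3 r1
  have h := cos_sub_cos (5 * π / 24) (13 * π / 24)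
  rw [show (5 * π / 24 + 13 * π / 24) / 2 = 3 * π / 8 by ring,
    show (5 * π / 24 - 13 * π / 24) / 2 = - (π / 6) by ring, sin_neg, sin_pi_div_six] at h
  have h2 : sin (3 * π / 8) = cos (π / 8) := by
    rw [show 3 * π / 8 = π / 2 - π / 8 by ring, sin_pi_div_two_sub]
  rw [h2] at h
  linarith

theorem s2_mul_s3 : s2 * s3 = √2 - 1 := by
  unfold s2 s3
  have h := two_cos_mul (5 * π / 24) (13 * π / 24)
  rw [show 5 * π / 24 - 13 * π / 24 = - (π / 3) by ring,
    show 5 * π / 24 + 13 * π / 24 = π - π / 4 by ring, cos_neg, cos_pi_sub, cos_pi_div_four,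
    cos_pi_div_three] at h
  linarith

theorem s1_sq_add : s1 ^ 2 + s2 ^ 2 = 4 := by
  unfold s1 s2
  have h1 := cos_two_mul (7 * π / 24)
  have h2 := cos_two_mul (5 * π / 24)
  rw [show 2 * (7 * π / 24) = 7 * π / 12 by ring, cos_s12] at h1
  rw [show 2 * (5 * π / 24) = 5 * π / 12 by ring] at h2
  linarith

theorem s1_mul_s2 : (s1 * s2) ^ 2 = 2 + √3 := by
  have h : s1 * s2 = 2 * cos (π / 12) := by
    unfold s1 s2
    rw [two_cos_mul, show 7 * π / 24 - 5 * π / 24 = π / 12 by ring,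
      show 7 * π / 24 + 5 * π / 24 = π / 2 by ring, cos_pi_div_two]
    ring
  have h2 := cos_two_mul (π / 12)
  rw [show 2 * (π / 12) = π / 6 by ring, cos_pi_div_six] at h2
  rw [h]
  linarith

theorem s0_pos : 0 < s0 := by
  unfold s0
  have := pi_pos
  have : 0 < cos (π / 24) := cos_pos_of_mem_Ioo ⟨by linarith, by linarith⟩
  linarith

theorem s1_pos : 0 < s1 := by
  unfold s1
  have := pi_pos
  have : 0 < cos (7 * π / 24) := cos_pos_of_mem_Ioo ⟨by linarith, by linarith⟩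
  linarith

theorem s2_pos : 0 < s2 := by
  unfold s2
  have := pi_pos
  have : 0 < cos (5 * π / 24) := cos_pos_of_mem_Ioo ⟨by linarith, by linarith⟩
  linarith

theorem s3_pos : 0 < s3 := by
  unfold s3
  have := pi_pos
  have h : cos (13 * π / 24) < 0 := cos_neg_of_pi_div_two_lt_of_lt (by linarith) (by linarith)
  linarith

/-- `(S² - s₁²) (S² - s₂²) = 4 h₀ / (1 - t)` -/
theorem quartic {t : ℝ} (ht : |t| < 1 / 20) :
    (SS t ^ 2 - s1 ^ 2) * (SS t ^ 2 - s2 ^ 2) = 4 * h0 / (1 - t) := by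
  obtain ⟨h1, h2⟩ := abs_lt.1 ht
  have h3 : 0 < 1 - t := by linarith
  have e1 : (SS t ^ 2 - s1 ^ 2) * (SS t ^ 2 - s2 ^ 2) =
      SS t ^ 4 - 4 * SS t ^ 2 + (2 + √3) := by
    have h4 := s1_sq_add
    have h5 := s1_mul_s2
    linear_combination (- SS t ^ 2) * h4 + h5
  have e2 := hh_eq ht
  have e3 : 4 * h0 / (1 - t) = 2 * (hh t + h0) := by
    unfold hh
    field_simp
    ring
  rw [e1, e3, e2]
  unfold h0
  ring

/-- `c - cos (3 π / 8)` -/
theorem c_sub {t : ℝ} (ht : |t| < 1 / 20) : cos (2 * xx t) - cos (3 * π / 8) =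
    (SS t - r1) * ((SS t + s2) * (SS t + s3)) / 2 := by
  rw [cos_two_xx ht]
  have e1 : cos (3 * π / 8) = r2 / 2 := by
    unfold r2
    ring
  have e2 : (SS t + s2) * (SS t + s3) = SS t ^ 2 + r1 * SS t + (√2 - 1) := by
    have h1 := s2_add_s3
    have h2 := s2_mul_s3
    linear_combination SS t * h1 + h2
  rw [e1, e2]
  have h3 := r1_cube
  have h4 := r1_sq
  linear_combination (1 / 2) * (h3 - r1 * h4) + (1 / 2) * SS t * h4

/-- `c + cos (π / 8)` -/
theorem c_add {t : ℝ} (ht : |t| < 1 / 20) : cos (2 * xx t) + cos (π / 8) =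
    (SS t - r2) * ((SS t - s1) * (SS t + s0)) / 2 := by
  rw [cos_two_xx ht]
  have e1 : cos (π / 8) = r1 / 2 := by
    unfold r1
    ring
  have e2 : (SS t - s1) * (SS t + s0) = SS t ^ 2 + r2 * SS t - (1 + √2) := by
    have h1 := s0_sub_s1
    have h2 := s0_mul_s1
    linear_combination SS t * h1 - h2
  rw [e1, e2]
  have h3 := r2_cube
  have h4 := r2_sq
  linear_combination (1 / 2) * (h3 - r2 * h4) + (1 / 2) * SS t * h4

/-- `h` as a product -/
theorem two_hh {t : ℝ} (ht : |t| < 1 / 20) :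
    (SS t ^ 2 - r1 ^ 2) * (SS t ^ 2 - r2 ^ 2) = 2 * hh t := by
  have h1 := r1_sq
  have h2 := r2_sq
  have h3 : r1 ^ 2 * r2 ^ 2 = 2 := by
    rw [← mul_pow, r1_mul_r2, sq_sqrt (by norm_num : (0 : ℝ) ≤ 2)]
  rw [hh_eq ht]
  linear_combination (- SS t ^ 2) * h1 - SS t ^ 2 * h2 + h3

/-- the function `m_* (c) = 1 / ((c + cos (π / 8)) (c - cos (3 π / 8)))` -/
def mst (c : ℝ) : ℝ := 1 / ((c + cos (π / 8)) * (c - cos (3 * π / 8)))

/-- closed form of `f₁` -/
def F1f (t : ℝ) : ℝ := K1 * (SS t - 1 / SS t) / (1 - t)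

/-- closed form of `f_*` -/
def Fsf (t : ℝ) : ℝ := 2 / 3 * K1 * ((1 - t) / (1 + t)) *
  ((SS t - 1 / SS t) * (SS t + r1) * (SS t + r2) * (SS t + s1) * (SS t - s2)) / ((SS t + s3) * (SS t + s0))

theorem gam_F1f {t : ℝ} (ht : |t| < 1 / 20) : gam t = F1f t := gam_eq ht

theorem gam_pos {t : ℝ} (ht : |t| < 1 / 20) : 0 < gam t := by
  unfold gam
  have h1 := sin_pos_2 ht
  have h2 := rho_pos ht
  positivity

theorem gam_mst {t : ℝ} (ht : |t| < 1 / 20) : gam t * mst (cos (2 * xx t)) = Fsf t := by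
  obtain ⟨h1, h2⟩ := abs_lt.1 ht
  have h3 : 0 < 1 - t := by linarith
  have h3' : 0 < 1 + t := by linarith
  have hS := SS_pos t
  have q1 := two_hh ht
  have q2 := quartic ht
  have h0p := h0_pos
  have hhp := hh_pos ht
  have e1 : 2 * hh t = 2 * h0 * (1 + t) / (1 - t) := by
    unfold hh
    ring
  have p1 := r1_pos
  have p2 := r2_pos
  have p3 := s0_pos
  have p4 := s1_pos
  have p5 := s2_pos
  have p6 := s3_pos
  have n1 : (SS t ^ 2 - r1 ^ 2) * (SS t ^ 2 - r2 ^ 2) ≠ 0 := by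
    rw [q1]
    positivity
  have n2 : (SS t ^ 2 - s1 ^ 2) * (SS t ^ 2 - s2 ^ 2) ≠ 0 := by
    rw [q2]
    positivity
  have m1 : SS t - r1 ≠ 0 := by
    intro h
    apply n1
    rw [show SS t ^ 2 - r1 ^ 2 = (SS t - r1) * (SS t + r1) by ring, h]
    ring
  have m2 : SS t - r2 ≠ 0 := by
    intro h
    apply n1
    rw [show SS t ^ 2 - r2 ^ 2 = (SS t - r2) * (SS t + r2) by ring, h]
    ring
  have m3 : SS t - s1 ≠ 0 := by
    intro h
    apply n2
    rw [show SS t ^ 2 - s1 ^ 2 = (SS t - s1) * (SS t + s1) by ring, h]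
    ring
  have m4 : SS t - s2 ≠ 0 := by
    intro h
    apply n2
    rw [show SS t ^ 2 - s2 ^ 2 = (SS t - s2) * (SS t + s2) by ring, h]
    ring
  have m5 : SS t + s3 ≠ 0 := by positivity
  have m6 : SS t + s0 ≠ 0 := by positivity
  have m7 : SS t + s2 ≠ 0 := by positivity
  have a1 : 1 / ((SS t - r1) * (SS t - r2)) =
      (SS t + r1) * (SS t + r2) * (1 - t) / (2 * h0 * (1 + t)) := by
    rw [div_eq_div_iff (mul_ne_zero m1 m2) (by positivity), one_mul]
    have : 2 * h0 * (1 + t) = 2 * hh t * (1 - t) := by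
      rw [e1]
      field_simp
    rw [this, ← q1]
    ring
  have a2 : 1 / ((SS t - s1) * (SS t + s2)) =
      (SS t + s1) * (SS t - s2) * (1 - t) / (4 * h0) := by
    rw [div_eq_div_iff (mul_ne_zero m3 m7) (by positivity), one_mul]
    have : 4 * h0 = 4 * h0 / (1 - t) * (1 - t) := by
      field_simp
    rw [this, ← q2]
    ring
  have a3 : mst (cos (2 * xx t)) = 4 * (1 / ((SS t - r1) * (SS t - r2))) *
      (1 / ((SS t - s1) * (SS t + s2))) * (1 / ((SS t + s3) * (SS t + s0))) := by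
    unfold mst
    rw [c_sub ht, c_add ht]
    field_simp
    norm_num
  have hh2 : h0 * h0 = 3 / 4 := by
    have := h0_sq
    nlinarith
  rw [gam_eq ht, a3, a1, a2]
  unfold Fsf
  have a4 : K1 * (SS t - 1 / SS t) / (1 - t) *
      (4 * ((SS t + r1) * (SS t + r2) * (1 - t) / (2 * h0 * (1 + t))) *
        ((SS t + s1) * (SS t - s2) * (1 - t) / (4 * h0)) * (1 / ((SS t + s3) * (SS t + s0)))) =
      1 / (2 * (h0 * h0)) * (K1 * ((1 - t) / (1 + t)) *
        ((SS t - 1 / SS t) * (SS t + r1) * (SS t + r2) * (SS t + s1) * (SS t - s2)) /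
          ((SS t + s3) * (SS t + s0))) := by
    field_simp
  rw [a4, hh2]
  ring

end

end P2F
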