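import Pool.Agent.EXP.Wien
import Pool.Agent.Ex.P2Form

/-!
The coefficients of the function `f_*` (`P2F.Fsf`): `(1 + t) f_* (t)` has an absolutely summable power
series on `[-1, 1)`, nonzero at `t = -1`; so the squares of the coefficients of `f_*` have a positive limit.
-/

set_option autoImplicit false

open Finset P2F EXPW

namespace Ex.P2

/-- `tan (π / 12) ^ 2` -/
noncomputable def tau : ℝ := (1 - h0) / (1 + h0)

theorem tau_nonneg : 0 ≤ tau := by
  unfold tau
  have := h0_pos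
  have := h0_lt
  apply div_nonneg <;> linarith

theorem tau_lt : tau < 1 := by
  unfold tau
  have := h0_pos
  rw [div_lt_one (by linarith)]
  linarith

theorem one_sub_tau_mul {t : ℝ} (h1 : -1 ≤ t) (h2 : t < 1) : 0 < 1 - tau * t := by
  have := tau_nonneg
  have := tau_lt
  nlinarith

theorem rad_eq {t : ℝ} (h2 : t < 1) :
    2 + 2 * hh t = 2 * (1 + h0) * (1 - tau * t) / (1 - t) := by
  have h3 : (1 : ℝ) - t ≠ 0 := by linarith
  have h4 : 1 + h0 ≠ 0 := by linarith [h0_pos]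
  unfold hh tau
  field_simp
  ring

theorem rad_pos {t : ℝ} (h1 : -1 ≤ t) (h2 : t < 1) : 0 < 2 + 2 * hh t := by
  rw [rad_eq h2]
  have := one_sub_tau_mul h1 h2
  have := h0_pos
  have : 0 < 1 - t := by linarith
  positivity

/-- `1 / √(2 + 2 h)` -/
theorem isF_g1 : IsF fun t => 1 / √(2 + 2 * hh t) := by
  have e0 : IsK fun t : ℝ => 1 * t := IsK.lin (by norm_num) le_rfl
  have e1 := e0.mob tau_nonneg tau_lt
  have e2 : IsF fun t => (1 - t) / (1 - tau * t) := by
    refine ⟨1, one_pos, _, e1, fun t _ _ => ?_⟩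
    simp only [one_mul]
    ring
  have hc : 0 < 1 / (2 * (1 + h0)) := by
    have := h0_pos
    positivity
  refine (e2.smul hc).sqrt.congr fun t h1 h2 => ?_
  rw [rad_eq h2, one_div √_, ← Real.sqrt_inv]
  congr 1
  have h3 : (1 : ℝ) - t ≠ 0 := by linarith
  have h4 : 1 + h0 ≠ 0 := by linarith [h0_pos]
  have h5 := (one_sub_tau_mul h1 h2).ne'
  field_simp

/-- `1 / S` -/
theorem isF_invS : IsF fun t => 1 / SS t := by
  refine (isF_g1.mob (a := 2) (by norm_num)).sqrt.congr fun t h1 h2 => ?_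
  have h3 := Real.sqrt_pos.2 (rad_pos h1 h2)
  rw [SS, one_div √(2 + √(2 + 2 * hh t)), ← Real.sqrt_inv]
  congr 1
  generalize √(2 + 2 * hh t) = q at h3
  have h4 : 1 + 2 * (1 / q) ≠ 0 := by positivity
  have h5 : 2 + q ≠ 0 := by positivity
  field_simp
  ring

/-- `1 / (S + a)` -/
theorem isF_invSa {a : ℝ} (ha : 0 ≤ a) : IsF fun t => 1 / (SS t + a) := by
  refine (isF_invS.mob ha).congr fun t _ _ => ?_
  have := SS_pos t
  field_simp

/-- `(1 - t) √(2 + 2 h)` -/
theorem isW_c : IsW fun t => (1 - t) * √(2 + 2 * hh t) := by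
  have e0 : IsF fun t : ℝ => 1 - t := by
    refine ⟨1, one_pos, _, IsK.lin (θ := 1) (by norm_num) le_rfl, fun t _ _ => ?_⟩
    ring
  have e1 : IsF fun t : ℝ => 1 - tau * t :=
    ⟨1, one_pos, _, IsK.lin tau_nonneg tau_lt.le, fun t _ _ => by ring⟩
  refine ((e0.sqrt.isW.mul e1.sqrt.isW).smul √(2 * (1 + h0))).congr fun t h1 h2 => ?_
  have h3 : (0 : ℝ) < 1 - t := by linarith
  have h4 : 0 < 1 + h0 := by linarith [h0_pos]
  have h5 := one_sub_tau_mul h1 h2
  rw [rad_eq h2, Real.sqrt_div (by positivity), Real.sqrt_mul (show 0 ≤ 2 * (1 + h0) by positivity)]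
  have h6 : √(1 - t) * √(1 - t) = 1 - t := Real.mul_self_sqrt h3.le
  have h7 : √(1 - t) ≠ 0 := (Real.sqrt_pos.2 h3).ne'
  generalize √(2 * (1 + h0)) = a
  generalize √(1 - tau * t) = b
  have h8 : (1 - t) * (a * b / √(1 - t)) = (√(1 - t) * √(1 - t)) * (a * b / √(1 - t)) := by rw [h6]
  rw [h8]
  field_simp

/-- `(1 - t) S ^ 4` -/
theorem isW_S4 : IsW fun t => (1 - t) * SS t ^ 4 := by
  have e0 : IsW fun t : ℝ => 1 - t := (IsW.const 1).sub IsW.id
  have e1 : IsW fun t : ℝ => 1 + t := (IsW.const 1).add IsW.id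
  refine (((e0.smul 6).add (isW_c.smul 4)).add (e1.smul (2 * h0))).congr fun t h1 h2 => ?_
  have h3 : (1 : ℝ) - t ≠ 0 := by linarith
  have h4 : SS t ^ 4 = (SS t ^ 2) ^ 2 := by ring
  have h5 : √(2 + 2 * hh t) ^ 2 = 2 + 2 * hh t := Real.sq_sqrt (rad_pos h1 h2).le
  have h6 : (1 - t) * hh t = h0 * (1 + t) := by
    unfold hh
    field_simp
  rw [h4, SS_sq]
  linear_combination (-(1 - t)) * h5 - 2 * h6

/-- The regular part of `f_*`. -/
noncomputable def Phi (t : ℝ) : ℝ := (1 - t) *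
  ((SS t - 1 / SS t) * (SS t + r1) * (SS t + r2) * (SS t + s1) * (SS t - s2)) / ((SS t + s3) * (SS t + s0))

theorem isW_Phi : IsW Phi := by
  have i := isF_invS.isW
  have c1 := IsW.const 1
  have e1 := c1.sub (i.mul i)
  have e2 := c1.add (i.smul r1)
  have e3 := c1.add (i.smul r2)
  have e4 := c1.add (i.smul s1)
  have e5 := c1.sub (i.smul s2)
  have e6 := c1.sub ((isF_invSa s3_pos.le).isW.smul s3)
  have e7 := c1.sub ((isF_invSa s0_pos.le).isW.smul s0)
  refine ((((((((isW_S4.mul i).mul e1).mul e2).mul e3).mul e4).mul e5).mul e6).mul e7).congr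
    fun t h1 h2 => ?_
  have h3 := SS_pos t
  have h4 := s3_pos
  have h5 := s0_pos
  have h6 : SS t + s3 ≠ 0 := by positivity
  have h7 : SS t + s0 ≠ 0 := by positivity
  unfold Phi
  field_simp
  ring

theorem s2_lt_r1 : s2 < r1 := by
  unfold s2 r1
  have hpi := Real.pi_pos
  have : Real.cos (5 * Real.pi / 24) < Real.cos (Real.pi / 8) :=
    Real.cos_lt_cos_of_nonneg_of_le_pi (by linarith) (by linarith) (by linarith)
  linarith

theorem r1_le_SS {t : ℝ} (h1 : -1 ≤ t) (h2 : t < 1) : r1 ≤ SS t := by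
  unfold SS
  refine Real.le_sqrt_of_sq_le ?_
  rw [r1_sq]
  have h3 : 0 ≤ hh t := by
    unfold hh
    have := h0_pos
    exact div_nonneg (mul_nonneg this.le (by linarith)) (by linarith)
  have := Real.sqrt_le_sqrt (show (2 : ℝ) ≤ 2 + 2 * hh t by linarith)
  linarith

theorem Phi_pos {t : ℝ} (h1 : -1 ≤ t) (h2 : t < 1) : 0 < Phi t := by
  have h3 := SS_pos t
  have h4 := one_lt_SS t
  have h5 := r1_pos
  have h6 := r2_pos
  have h7 := s0_pos
  have h8 := s1_pos
  have h9 := s2_pos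
  have h10 := s3_pos
  have h11 : 0 < SS t - s2 := by linarith [s2_lt_r1, r1_le_SS h1 h2]
  have h12 : 0 < SS t - 1 / SS t := by
    have : 1 / SS t < 1 := by rw [div_lt_one h3]; exact h4
    linarith
  have h13 : 0 < 1 - t := by linarith
  unfold Phi
  positivity

/-- coefficients of `f*` -/
theorem coefF2 : ∃ F2 : ℕ → ℝ, (∀ z : ℝ, |z| < 1 → HasSum (fun j => F2 j * z ^ j) (P2F.Fsf z)) ∧
    ∃ c C : ℝ, 0 < c ∧ 0 < C ∧ ∀ n : ℕ, 1 ≤ n → c * (n : ℝ) ≤ ∑ j ∈ range n, F2 j ^ 2 ∧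
      ∑ j ∈ range n, F2 j ^ 2 ≤ C * (n : ℝ) := by
  have hK : 0 < 2 / 3 * K1 := by
    have := K1_pos
    positivity
  obtain ⟨F, hF, hb⟩ := coef_of_W isW_Phi (2 / 3 * K1)
    (mul_pos hK (Phi_pos le_rfl (by norm_num))).ne' (mul_pos hK (Phi_pos (by norm_num) (by norm_num))).ne'
  refine ⟨F, fun z hz => ?_, hb⟩
  have h := hF z hz
  convert h using 1
  unfold Fsf Phi
  ring

end Ex.P2
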