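import Mathlib

/-!
The final inequality: two sandwiched sums and a nonincreasing sequence give the exponent 1 / 4.
-/

set_option autoImplicit false

open Finset

namespace Ex.P2

/-- From the two sandwiched sums to the two-sided bound of the nonincreasing sequence `B`. -/
theorem final_ineq {u B F1 F2 : ℕ → ℝ} (hB0 : ∀ n, 0 ≤ B n) (hB : ∀ m n, m ≤ n → B n ≤ B m)
    (h1 : ∀ n, ∑ j ∈ range n, F1 j ^ 2 ≤ ∑ m ∈ range n, u m ^ 2 ∧
      ∑ m ∈ range n, u m ^ 2 ≤ 2 * ∑ j ∈ range n, F1 j ^ 2)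
    (h2 : ∀ n, ∑ j ∈ range n, F2 j ^ 2 ≤ ∑ m ∈ range n, B m ^ 2 * u m ^ 2 ∧
      ∑ m ∈ range n, B m ^ 2 * u m ^ 2 ≤ 2 * ∑ j ∈ range n, F2 j ^ 2)
    {c1 C1 c2 C2 : ℝ} (hc1 : 0 < c1) (hC1 : 0 < C1) (hc2 : 0 < c2) (hC2 : 0 < C2)
    (hF1 : ∀ n : ℕ, 1 ≤ n → c1 * (n : ℝ) ^ (3 / 2 : ℝ) ≤ ∑ j ∈ range n, F1 j ^ 2 ∧
      ∑ j ∈ range n, F1 j ^ 2 ≤ C1 * (n : ℝ) ^ (3 / 2 : ℝ))
    (hF2 : ∀ n : ℕ, 1 ≤ n → c2 * (n : ℝ) ≤ ∑ j ∈ range n, F2 j ^ 2 ∧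
      ∑ j ∈ range n, F2 j ^ 2 ≤ C2 * (n : ℝ)) :
    ∃ c C : ℝ, 0 < c ∧ 0 < C ∧ ∀ n : ℕ, 1 ≤ n →
      c * (n : ℝ) ^ (-(1 / 4) : ℝ) ≤ B n ∧ B n ≤ C * (n : ℝ) ^ (-(1 / 4) : ℝ) := by
  obtain ⟨a, ha⟩ := exists_nat_ge (3 * C2 / c2)
  have ha1 : 3 * C2 ≤ c2 * a := by
    rw [div_le_iff₀ hc2] at ha
    linarith
  have ha0 : (0 : ℝ) < a := by
    by_contra h
    have : c2 * (a : ℝ) ≤ 0 := mul_nonpos_of_nonneg_of_nonpos hc2.le (not_lt.1 h)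
    linarith
  have ha2 : 1 ≤ a := by
    have : (0 : ℝ) < (a : ℝ) := ha0
    exact_mod_cast this
  obtain ⟨cl, hcl⟩ : ∃ cl : ℝ, cl = C2 / (2 * C1 * (a : ℝ) ^ (3 / 2 : ℝ)) := ⟨_, rfl⟩
  have hcl0 : 0 < cl := by rw [hcl]; positivity
  have hsq : ∀ n : ℕ, 1 ≤ n → (((n : ℝ) ^ (-(1 / 4) : ℝ)) ^ 2 = (n : ℝ) ^ (-(1 / 2) : ℝ)) := by
    intro n hn
    have hn0 : (0 : ℝ) < n := by exact_mod_cast hn
    rw [← Real.rpow_natCast, ← Real.rpow_mul hn0.le]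
    norm_num
  refine ⟨Real.sqrt cl, Real.sqrt (2 * C2 / c1), Real.sqrt_pos.2 hcl0, Real.sqrt_pos.2 (by positivity), ?_⟩
  intro n hn
  have hn0 : (0 : ℝ) < n := by exact_mod_cast hn
  have hn1 : (1 : ℝ) ≤ n := by exact_mod_cast hn
  have hp : 0 < (n : ℝ) ^ (-(1 / 4) : ℝ) := Real.rpow_pos_of_pos hn0 _
  have hBn := hB0 n
  constructor
  · -- lower bound
    have hfirst : cl * (n : ℝ) ^ (-(1 / 2) : ℝ) ≤ B n ^ 2 := by
      have e1 : ∑ m ∈ range (a * n), B m ^ 2 * u m ^ 2 =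
          ∑ m ∈ range n, B m ^ 2 * u m ^ 2 + ∑ m ∈ Ico n (a * n), B m ^ 2 * u m ^ 2 := by
        rw [range_eq_Ico, range_eq_Ico, sum_Ico_consecutive _ (Nat.zero_le _) (Nat.le_mul_of_pos_left n ha2)]
      have e2 : ∑ m ∈ Ico n (a * n), B m ^ 2 * u m ^ 2 ≤ B n ^ 2 * ∑ m ∈ range (a * n), u m ^ 2 := by
        calc ∑ m ∈ Ico n (a * n), B m ^ 2 * u m ^ 2 ≤ ∑ m ∈ Ico n (a * n), B n ^ 2 * u m ^ 2 := by
              apply sum_le_sum
              intro m hm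
              rw [mem_Ico] at hm
              exact mul_le_mul_of_nonneg_right (pow_le_pow_left₀ (hB0 m) (hB n m hm.1) 2) (sq_nonneg _)
          _ ≤ ∑ m ∈ range (a * n), B n ^ 2 * u m ^ 2 := by
              apply sum_le_sum_of_subset_of_nonneg
              · intro m hm
                rw [mem_Ico] at hm
                rw [mem_range]
                exact hm.2
              · intro m _ _
                positivity
          _ = _ := by rw [mul_sum]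
      have han : 1 ≤ a * n := Nat.one_le_iff_ne_zero.2 (by positivity)
      have hcast : ((a * n : ℕ) : ℝ) = a * n := by push_cast; ring
      have e3 := (h2 (a * n)).1
      have e4 := (hF2 (a * n) han).1
      have e5 := (h2 n).2
      have e6 := (hF2 n hn).2
      have e7 := (h1 (a * n)).2
      have e8 := (hF1 (a * n) han).2
      rw [hcast] at e4 e8
      have e9 : C2 * n ≤ ∑ m ∈ Ico n (a * n), B m ^ 2 * u m ^ 2 := by
        have : 3 * C2 * n ≤ c2 * (a * n) := by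
          calc 3 * C2 * n ≤ (c2 * a) * n := mul_le_mul_of_nonneg_right ha1 hn0.le
            _ = c2 * (a * n) := by ring
        linarith
      have e10 : C2 * n ≤ B n ^ 2 * (2 * C1 * ((a : ℝ) ^ (3 / 2 : ℝ) * (n : ℝ) ^ (3 / 2 : ℝ))) := by
        refine e9.trans (e2.trans ?_)
        apply mul_le_mul_of_nonneg_left _ (sq_nonneg _)
        rw [← Real.mul_rpow ha0.le hn0.le]
        linarith
      have e11 : (n : ℝ) = (n : ℝ) ^ (3 / 2 : ℝ) * (n : ℝ) ^ (-(1 / 2) : ℝ) := by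
        rw [← Real.rpow_add hn0]
        norm_num
      have hn32 : 0 < (n : ℝ) ^ (3 / 2 : ℝ) := Real.rpow_pos_of_pos hn0 _
      have ha32 : 0 < (a : ℝ) ^ (3 / 2 : ℝ) := Real.rpow_pos_of_pos ha0 _
      rw [hcl, div_mul_eq_mul_div, div_le_iff₀ (by positivity)]
      have e12 : C2 * (n : ℝ) ^ (-(1 / 2) : ℝ) * (n : ℝ) ^ (3 / 2 : ℝ) ≤
          B n ^ 2 * (2 * C1 * (a : ℝ) ^ (3 / 2 : ℝ)) * (n : ℝ) ^ (3 / 2 : ℝ) := by
        calc C2 * (n : ℝ) ^ (-(1 / 2) : ℝ) * (n : ℝ) ^ (3 / 2 : ℝ) =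
            C2 * ((n : ℝ) ^ (3 / 2 : ℝ) * (n : ℝ) ^ (-(1 / 2) : ℝ)) := by ring
          _ = C2 * n := by rw [← e11]
          _ ≤ _ := e10
          _ = _ := by ring
      exact le_of_mul_le_mul_right e12 hn32
    have h3 : (Real.sqrt cl * (n : ℝ) ^ (-(1 / 4) : ℝ)) ^ 2 ≤ B n ^ 2 := by
      rw [mul_pow, Real.sq_sqrt hcl0.le, hsq n hn]
      exact hfirst
    exact (pow_le_pow_iff_left₀ (by positivity) hBn (by norm_num)).1 h3
  · -- upper bound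
    have hfirst : B n ^ 2 ≤ 2 * C2 / c1 * (n : ℝ) ^ (-(1 / 2) : ℝ) := by
      have e2 : B n ^ 2 * ∑ m ∈ range n, u m ^ 2 ≤ ∑ m ∈ range n, B m ^ 2 * u m ^ 2 := by
        rw [mul_sum]
        apply sum_le_sum
        intro m hm
        rw [mem_range] at hm
        exact mul_le_mul_of_nonneg_right (pow_le_pow_left₀ hBn (hB m n hm.le) 2) (sq_nonneg _)
      have e3 := (h2 n).2
      have e4 := (hF2 n hn).2
      have e5 := (h1 n).1
      have e6 := (hF1 n hn).1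
      have e7 : B n ^ 2 * (c1 * (n : ℝ) ^ (3 / 2 : ℝ)) ≤ 2 * C2 * n := by
        have : B n ^ 2 * (c1 * (n : ℝ) ^ (3 / 2 : ℝ)) ≤ B n ^ 2 * ∑ m ∈ range n, u m ^ 2 :=
          mul_le_mul_of_nonneg_left (e6.trans e5) (sq_nonneg _)
        linarith
      have e11 : (n : ℝ) = (n : ℝ) ^ (3 / 2 : ℝ) * (n : ℝ) ^ (-(1 / 2) : ℝ) := by
        rw [← Real.rpow_add hn0]
        norm_num
      have hn32 : 0 < (n : ℝ) ^ (3 / 2 : ℝ) := Real.rpow_pos_of_pos hn0 _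
      have e12 : B n ^ 2 * (n : ℝ) ^ (3 / 2 : ℝ) ≤
          (2 * C2 / c1 * (n : ℝ) ^ (-(1 / 2) : ℝ)) * (n : ℝ) ^ (3 / 2 : ℝ) := by
        calc B n ^ 2 * (n : ℝ) ^ (3 / 2 : ℝ) = B n ^ 2 * (c1 * (n : ℝ) ^ (3 / 2 : ℝ)) / c1 := by field_simp
          _ ≤ 2 * C2 * n / c1 := div_le_div_of_nonneg_right e7 hc1.le
          _ = 2 * C2 / c1 * ((n : ℝ) ^ (3 / 2 : ℝ) * (n : ℝ) ^ (-(1 / 2) : ℝ)) := by
              rw [← e11]; ring
          _ = _ := by ring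
      exact le_of_mul_le_mul_right e12 hn32
    have h3 : B n ^ 2 ≤ (Real.sqrt (2 * C2 / c1) * (n : ℝ) ^ (-(1 / 4) : ℝ)) ^ 2 := by
      rw [mul_pow, Real.sq_sqrt (by positivity), hsq n hn]
      exact hfirst
    exact (pow_le_pow_iff_left₀ hBn (by positivity) (by norm_num)).1 h3

end Ex.P2
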