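import Pool.Agent.Ex.P2Form
import Pool.Agent.EXP.NForm

/-!
# The exact strip formula: the vectors `v t` of the Hilbert space (helper92)
-/

namespace P2F

noncomputable section

open Real MeasureTheory

/-- the vectors -/
def vv (t : ℝ) : Lp ℝ 2 (volume : Measure ℝ) := (√(√2) * rho t)⁻¹ • P2W.vN (xx t)

theorem sqrt_sqrt_mul : √(√2) * √(√2) = √2 := mul_self_sqrt (sqrt_nonneg 2)

theorem xx_abs {t : ℝ} (ht : |t| < 1 / 20) : |xx t| < 3 * π / 16 := by
  rw [abs_of_pos (xx_pos ht)]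
  exact xx_lt ht

/-- the kernel `Nt` in closed form -/
theorem Nt_eq {t t' : ℝ} (ht : |t| < 1 / 20) (ht' : |t'| < 1 / 20) :
    P2W.Nt (xx t) (xx t') = √2 * (rho t * rho t' / (1 - t * t')) := by
  rw [← szego ht ht']
  have h1 := xx_pos ht
  have h2 := xx_lt ht
  have h3 := xx_pos ht'
  have h4 := xx_lt ht'
  have hpi := pi_pos
  have c1 : 0 < cos (4 * (xx t + xx t') / 3) := cos_pos_of_mem_Ioo ⟨by linarith, by linarith⟩
  have c2 : 0 < cos (4 * (xx t - xx t') / 3) := cos_pos_of_mem_Ioo ⟨by linarith, by linarith⟩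
  have e1 : cos (8 * xx t / 3) + cos (8 * xx t' / 3) =
      2 * cos (4 * (xx t + xx t') / 3) * cos (4 * (xx t - xx t') / 3) := by
    rw [cos_add_cos]
    congr 2
    · congr 1
      ring
    · ring
  have e2 : cos (4 * (xx t - xx t') / 3) - cos (4 * (xx t + xx t') / 3) =
      2 * sin (4 * xx t / 3) * sin (4 * xx t' / 3) := by
    rw [show 4 * (xx t - xx t') / 3 = 4 * xx t / 3 - 4 * xx t' / 3 by ring,
      show 4 * (xx t + xx t') / 3 = 4 * xx t / 3 + 4 * xx t' / 3 by ring, cos_sub, cos_add]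
    ring
  unfold P2W.Nt P2W.Et
  rw [e1]
  have e3 : 8 / 3 * sin (4 * xx t / 3) * sin (4 * xx t' / 3) = 4 / 3 *
      (cos (4 * (xx t - xx t') / 3) - cos (4 * (xx t + xx t') / 3)) := by
    rw [e2]
    ring
  rw [e3]
  field_simp
  ring

/-- the kernel `NN` in closed form -/
theorem NN_eq (x y : ℝ) (h1 : cos (2 * (x + y)) + cos (π / 4) ≠ 0)
    (h2 : cos (2 * (x - y)) + cos (π / 4) ≠ 0) :
    P2W.NN x y = 2 * sin (2 * x) * sin (2 * y) / H (cos (2 * x)) (cos (2 * y)) := by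
  have e1 : H (cos (2 * x)) (cos (2 * y)) =
      (cos (2 * (x + y)) + cos (π / 4)) * (cos (2 * (x - y)) + cos (π / 4)) := by
    unfold H
    rw [show 2 * (x + y) = 2 * x + 2 * y by ring, show 2 * (x - y) = 2 * x - 2 * y by ring,
      cos_add, cos_sub, cos_pi_div_four]
    have h3 := sin_sq_add_cos_sq (2 * x)
    have h4 := sin_sq_add_cos_sq (2 * y)
    have h5 : √2 * √2 = 2 := mul_self_sqrt (by norm_num)
    have h6 : sin (2 * x) ^ 2 = 1 - cos (2 * x) ^ 2 := by linarith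
    have h7 : sin (2 * y) ^ 2 = 1 - cos (2 * y) ^ 2 := by linarith
    linear_combination (sin (2 * y) ^ 2) * h6 + (1 - cos (2 * x) ^ 2) * h7 - (1 / 4) * h5
  unfold P2W.NN P2W.E
  rw [e1, div_sub_div _ _ h1 h2]
  congr 1
  rw [show 2 * (x + y) = 2 * x + 2 * y by ring, show 2 * (x - y) = 2 * x - 2 * y by ring,
    cos_add, cos_sub]
  ring

theorem cos_ne {z : ℝ} (hz : |z| < 3 * π / 8) : cos (2 * z) + cos (π / 4) ≠ 0 := by
  have h1 : |2 * z| < 3 * π / 4 := by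
    rw [abs_mul, abs_of_pos (by norm_num : (0 : ℝ) < 2)]
    linarith
  have hpi := pi_pos
  have h2 : cos (3 * π / 4) < cos (|2 * z|) :=
    cos_lt_cos_of_nonneg_of_le_pi (abs_nonneg _) (by linarith) h1
  rw [cos_abs, show 3 * π / 4 = π - π / 4 by ring, cos_pi_sub] at h2
  linarith

/-- the Gram matrix of the vectors `v t` -/
theorem inner_vv {t t' : ℝ} (ht : |t| < 1 / 20) (ht' : |t'| < 1 / 20) :
    inner ℝ (vv t) (vv t') = gam t * gam t' / H (cos (2 * xx t)) (cos (2 * xx t')) := by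
  have h1 := xx_pos ht
  have h2 := xx_lt ht
  have h3 := xx_pos ht'
  have h4 := xx_lt ht'
  have r1 := rho_pos ht
  have r2 := rho_pos ht'
  unfold vv
  rw [real_inner_smul_left, real_inner_smul_right, P2W.inner_vN (xx_abs ht) (xx_abs ht'),
    NN_eq _ _ (cos_ne (abs_lt.2 ⟨by linarith, by linarith⟩))
      (cos_ne (abs_lt.2 ⟨by linarith, by linarith⟩)), ← ker_w]
  have e1 := sqrt_sqrt_mul
  have e2 : √2 * √2 = 2 := mul_self_sqrt (by norm_num)
  have e3 : 0 < √(√2) := sqrt_pos.2 (sqrt_pos.2 (by norm_num))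
  have e4 : 0 < √2 := sqrt_pos.2 (by norm_num)
  have e5 : (√(√2) * rho t)⁻¹ * ((√(√2) * rho t')⁻¹ *
      (2 * sin (2 * xx t) * sin (2 * xx t') / H (cos (2 * xx t)) (cos (2 * xx t')))) =
      (√(√2) * √(√2))⁻¹ * (√2 * √2) * (sin (2 * xx t) * sin (2 * xx t') /
        H (cos (2 * xx t)) (cos (2 * xx t')) / (rho t * rho t')) := by
    rw [e2]
    rw [mul_inv, mul_inv, mul_inv, div_div, div_eq_mul_inv, div_eq_mul_inv, mul_inv, mul_inv]
    ring
  rw [e5, e1]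
  have e6 : (√2)⁻¹ * (√2 * √2) = √2 := by
    field_simp
  rw [e6]
  ring

/-- the two sided comparison with the Szego kernel -/
theorem hv {ι : Type} [Fintype ι] (a z : ι → ℝ) (hz : ∀ i, |z i| < 1 / 20) :
    (1 / 2) * ∑ i, ∑ j, a i * a j / (1 - z i * z j) ≤ ‖∑ i, a i • vv (z i)‖ ^ 2 ∧
      ‖∑ i, a i • vv (z i)‖ ^ 2 ≤ ∑ i, ∑ j, a i * a j / (1 - z i * z j) := by
  have e3 : 0 < √(√2) := sqrt_pos.2 (sqrt_pos.2 (by norm_num))
  have e4 : 0 < √2 := sqrt_pos.2 (by norm_num)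
  have key : ∑ i, a i • vv (z i) = ∑ i, (a i * (√(√2) * rho (z i))⁻¹) • P2W.vN (xx (z i)) := by
    refine Finset.sum_congr rfl fun i _ => ?_
    unfold vv
    rw [smul_smul]
  have h1 := P2W.norm_vN (ι := ι) Finset.univ (fun i => a i * (√(√2) * rho (z i))⁻¹) (fun i => xx (z i))
    (fun i _ => xx_abs (hz i))
  have h2 : ∑ i, ∑ j, (a i * (√(√2) * rho (z i))⁻¹) * (a j * (√(√2) * rho (z j))⁻¹) *
      P2W.Nt (xx (z i)) (xx (z j)) = ∑ i, ∑ j, a i * a j / (1 - z i * z j) := by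
    refine Finset.sum_congr rfl fun i _ => Finset.sum_congr rfl fun j _ => ?_
    rw [Nt_eq (hz i) (hz j)]
    have r1 := rho_pos (hz i)
    have r2 := rho_pos (hz j)
    have e1 := sqrt_sqrt_mul
    have e5 : a i * (√(√2) * rho (z i))⁻¹ * (a j * (√(√2) * rho (z j))⁻¹) *
        (√2 * (rho (z i) * rho (z j) / (1 - z i * z j))) =
        ((√(√2) * √(√2))⁻¹ * √2) * ((rho (z i))⁻¹ * rho (z i)) * ((rho (z j))⁻¹ * rho (z j)) *
          (a i * a j / (1 - z i * z j)) := by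
      rw [mul_inv, mul_inv, mul_inv]
      ring
    rw [e5, e1, inv_mul_cancel₀ e4.ne', inv_mul_cancel₀ r1.ne', inv_mul_cancel₀ r2.ne']
    ring
  rw [key]
  rw [h2] at h1
  exact ⟨h1.2, h1.1⟩

end

end P2F
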