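import Mathlib

/-!
Abstract limit theorem: vectors v z of a Hilbert space whose Gram kernel is sandwiched by the
Szego kernel, nodes k * eps, scaled forward differences.
-/

set_option autoImplicit false

open scoped BigOperators Topology
open Filter Finset

namespace Ex.P2

/-- scaled forward difference of order j at the node s * ε, step ε -/
noncomputable def DD {V : Type*} [AddCommGroup V] [Module ℝ V] (j s : ℕ) (ε : ℝ) (φ : ℝ → V) : V :=
  (1 / ((j.factorial : ℝ) * ε ^ j)) • (fwdDiff 1)^[j] (fun n : ℕ => φ ((n : ℝ) * ε)) s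

lemma DD_eq_sum {V : Type*} [AddCommGroup V] [Module ℝ V] (j s : ℕ) (ε : ℝ) (φ : ℝ → V) :
    DD j s ε φ = ∑ k ∈ range (j + 1),
      ((1 / ((j.factorial : ℝ) * ε ^ j)) * ((-1 : ℝ) ^ (j - k) * (j.choose k : ℝ))) •
        φ (((s + k : ℕ) : ℝ) * ε) := by
  unfold DD
  rw [fwdDiff_iter_eq_sum_shift, smul_sum]
  refine sum_congr rfl fun k _ => ?_
  rw [smul_eq_mul, mul_one]
  have : ((-1 : ℤ) ^ (j - k) * (j.choose k : ℤ)) • φ (((s + k : ℕ) : ℝ) * ε)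
      = (((-1 : ℤ) ^ (j - k) * (j.choose k : ℤ) : ℤ) : ℝ) • φ (((s + k : ℕ) : ℝ) * ε) := by
    rw [Int.cast_smul_eq_zsmul]
  rw [this, smul_smul]
  push_cast
  rfl

/-- the moments of the forward difference -/
noncomputable def cc (j s m : ℕ) : ℝ := ∑ k ∈ range (j + 1),
  ((1 / (j.factorial : ℝ)) * ((-1 : ℝ) ^ (j - k) * (j.choose k : ℝ))) * ((s + k : ℕ) : ℝ) ^ m

lemma cc_eq (j s m : ℕ) : cc j s m = (1 / (j.factorial : ℝ)) *
    (fwdDiff 1)^[j] (fun r : ℝ => r ^ m) (s : ℝ) := by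
  unfold cc
  rw [fwdDiff_iter_eq_sum_shift, mul_sum]
  refine sum_congr rfl fun k _ => ?_
  rw [zsmul_eq_mul]
  push_cast
  simp only [nsmul_eq_mul, mul_one]
  ring

lemma cc_lt {j s m : ℕ} (h : m < j) : cc j s m = 0 := by
  rw [cc_eq, fwdDiff_iter_pow_eq_zero_of_lt h]
  simp

lemma cc_self (j s : ℕ) : cc j s j = 1 := by
  rw [cc_eq, fwdDiff_iter_eq_factorial]
  have : (j.factorial : ℝ) ≠ 0 := by exact_mod_cast j.factorial_ne_zero
  simp [this]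

lemma cc_abs (j s m : ℕ) : |cc j s m| ≤ 2 ^ j * ((s + j : ℕ) : ℝ) ^ m := by
  unfold cc
  refine (abs_sum_le_sum_abs _ _).trans ?_
  have h1 : ∀ k ∈ range (j + 1), |((1 / (j.factorial : ℝ)) * ((-1 : ℝ) ^ (j - k) * (j.choose k : ℝ))) *
      ((s + k : ℕ) : ℝ) ^ m| ≤ (j.choose k : ℝ) * ((s + j : ℕ) : ℝ) ^ m := by
    intro k hk
    have hk' : k ≤ j := by simpa [Nat.lt_succ_iff] using hk
    rw [abs_mul, abs_mul, abs_mul, abs_pow, abs_neg, abs_one, one_pow, one_mul]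
    have e1 : |1 / (j.factorial : ℝ)| ≤ 1 := by
      rw [abs_of_nonneg (by positivity)]
      rw [div_le_one (by exact_mod_cast j.factorial_pos)]
      exact_mod_cast j.factorial_pos
    have e2 : |(j.choose k : ℝ)| = (j.choose k : ℝ) := abs_of_nonneg (by positivity)
    have e3 : |((s + k : ℕ) : ℝ) ^ m| ≤ ((s + j : ℕ) : ℝ) ^ m := by
      rw [abs_of_nonneg (by positivity)]
      exact pow_le_pow_left₀ (by positivity) (by exact_mod_cast Nat.add_le_add_left hk' s) m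
    rw [e2]
    calc |1 / (j.factorial : ℝ)| * (j.choose k : ℝ) * |((s + k : ℕ) : ℝ) ^ m|
        ≤ 1 * (j.choose k : ℝ) * ((s + j : ℕ) : ℝ) ^ m := by gcongr
      _ = _ := by ring
  refine (sum_le_sum h1).trans ?_
  rw [← sum_mul]
  have : ∑ i ∈ range (j + 1), (j.choose i : ℝ) = 2 ^ j := by
    exact_mod_cast Nat.sum_range_choose j
  rw [this]

lemma DD_pow (j s m : ℕ) {ε : ℝ} :
    DD j s ε (fun z : ℝ => z ^ m) = cc j s m * (ε ^ m / ε ^ j) := by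
  rw [DD_eq_sum]
  unfold cc
  rw [sum_mul]
  refine sum_congr rfl fun k _ => ?_
  rw [smul_eq_mul, mul_pow, one_div, mul_inv]
  ring

lemma DD_map {V W : Type*} [AddCommGroup V] [Module ℝ V] [AddCommGroup W] [Module ℝ W]
    (L : V →ₗ[ℝ] W) (j s : ℕ) (ε : ℝ) (φ : ℝ → V) :
    DD j s ε (fun z => L (φ z)) = L (DD j s ε φ) := by
  rw [DD_eq_sum, DD_eq_sum, map_sum]
  exact sum_congr rfl fun k _ => by rw [map_smul]

/-- the finitely supported combination behind the difference -/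
noncomputable def DDf (j s : ℕ) (ε : ℝ) : ℝ →₀ ℝ := DD j s ε (fun z => Finsupp.single z (1 : ℝ))

lemma lc_DDf {V : Type*} [AddCommGroup V] [Module ℝ V] (j s : ℕ) (ε : ℝ) (φ : ℝ → V) :
    Finsupp.linearCombination ℝ φ (DDf j s ε) = DD j s ε φ := by
  unfold DDf
  rw [← DD_map]
  congr 1
  funext z
  rw [Finsupp.linearCombination_single, one_smul]

lemma DDf_supp {j s : ℕ} {ε δ : ℝ} (h0 : 0 ≤ ε) (h : ((s + j : ℕ) : ℝ) * ε < δ) :
    DDf j s ε ∈ Finsupp.supported ℝ ℝ {z : ℝ | |z| < δ} := by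
  unfold DDf
  rw [DD_eq_sum]
  refine Submodule.sum_mem _ fun k hk => Submodule.smul_mem _ _ ?_
  have hk' : k ≤ j := by simpa [Nat.lt_succ_iff] using hk
  refine Finsupp.single_mem_supported ℝ _ ?_
  show |((s + k : ℕ) : ℝ) * ε| < δ
  rw [abs_of_nonneg (by positivity)]
  refine lt_of_le_of_lt ?_ h
  exact mul_le_mul_of_nonneg_right (by exact_mod_cast Nat.add_le_add_left hk' s) h0

/-! ### the model space -/

/-- the vector of powers in the space of square summable sequences -/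
noncomputable def kv (z : ℝ) : lp (fun _ : ℕ => ℝ) 2 :=
  if h : |z| < 1 then ⟨fun m => z ^ m, by
    apply memℓp_gen
    have h2 : Summable (fun m : ℕ => (z ^ 2) ^ m) :=
      summable_geometric_of_lt_one (by positivity) (by
        rw [← sq_abs]; nlinarith [abs_nonneg z])
    refine h2.congr fun m => ?_
    simp only [ENNReal.toReal_ofNat, Real.norm_eq_abs, Real.rpow_two, sq_abs]
    ring⟩ else 0

lemma kv_apply {z : ℝ} (h : |z| < 1) (m : ℕ) : (kv z : ℕ → ℝ) m = z ^ m := by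
  unfold kv
  rw [dif_pos h]

lemma DD_kv_apply {j s : ℕ} {ε : ℝ} (h0 : 0 ≤ ε) (h : ((s + j : ℕ) : ℝ) * ε < 1) (m : ℕ) :
    ((DD j s ε kv : lp (fun _ : ℕ => ℝ) 2) : ℕ → ℝ) m = cc j s m * (ε ^ m / ε ^ j) := by
  rw [← DD_pow, DD_eq_sum, DD_eq_sum]
  rw [lp.coeFn_sum, Finset.sum_apply]
  refine sum_congr rfl fun k hk => ?_
  have hk' : k ≤ j := by simpa [Nat.lt_succ_iff] using hk
  rw [lp.coeFn_smul, Pi.smul_apply, kv_apply]
  rw [abs_of_nonneg (by positivity)]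
  refine lt_of_le_of_lt ?_ h
  exact mul_le_mul_of_nonneg_right (by exact_mod_cast Nat.add_le_add_left hk' s) h0

lemma inner_kv {z w : ℝ} (hz : |z| < 1) (hw : |w| < 1) :
    inner ℝ (kv z) (kv w) = 1 / (1 - z * w) := by
  rw [lp.inner_eq_tsum]
  have h1 : |z * w| < 1 := by
    rw [abs_mul]
    nlinarith [abs_nonneg z, abs_nonneg w]
  have h2 : (fun i : ℕ => inner ℝ ((kv z : ℕ → ℝ) i) ((kv w : ℕ → ℝ) i)) = fun i => (z * w) ^ i := by
    funext i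
    rw [kv_apply hz, kv_apply hw, mul_pow]
    simp [mul_comm]
  rw [h2, tsum_geometric_of_abs_lt_one h1, one_div]

lemma norm_sq_lc_kv (a : ℝ →₀ ℝ) (ha : ∀ z ∈ a.support, |z| < 1) :
    ‖Finsupp.linearCombination ℝ kv a‖ ^ 2 =
      ∑ i : a.support, ∑ j : a.support, a i * a j / (1 - (i : ℝ) * (j : ℝ)) := by
  rw [← real_inner_self_eq_norm_sq, Finsupp.linearCombination_apply, Finsupp.sum,
    ← Finset.sum_coe_sort, sum_inner]
  refine sum_congr rfl fun i _ => ?_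
  rw [inner_sum]
  refine sum_congr rfl fun j _ => ?_
  rw [real_inner_smul_left, real_inner_smul_right, inner_kv (ha i i.2) (ha j j.2)]
  ring

/-- the basis vectors -/
noncomputable def ev (j : ℕ) : lp (fun _ : ℕ => ℝ) 2 := lp.single 2 j (1 : ℝ)

lemma ev_apply (j m : ℕ) : (ev j : ℕ → ℝ) m = if m = j then 1 else 0 := by
  unfold ev
  rw [lp.coeFn_single, Pi.single_apply]

lemma DD_kv_sub_norm {j s : ℕ} {ε : ℝ} (h0 : 0 < ε) (h : ((s + j : ℕ) : ℝ) * ε < 1) :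
    ‖DD j s ε kv - ev j‖ ^ 2 ≤ (2 ^ j * ((s + j : ℕ) : ℝ) ^ j) ^ 2 *
      ((((s + j : ℕ) : ℝ) * ε) ^ 2 / (1 - (((s + j : ℕ) : ℝ) * ε) ^ 2)) := by
  set R : ℝ := ((s + j : ℕ) : ℝ) with hR
  have hR0 : 0 ≤ R := by positivity
  set x : lp (fun _ : ℕ => ℝ) 2 := DD j s ε kv - ev j with hx
  have hco : ∀ m, (x : ℕ → ℝ) m = cc j s m * (ε ^ m / ε ^ j) - if m = j then 1 else 0 := by
    intro m
    rw [hx, lp.coeFn_sub, Pi.sub_apply, DD_kv_apply h0.le h, ev_apply]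
  have hsm : ∀ m, m < j + 1 → (x : ℕ → ℝ) m = 0 := by
    intro m hm
    rw [hco]
    rcases Nat.lt_or_ge m j with h1 | h1
    · rw [cc_lt h1, if_neg (by omega)]; ring
    · have : m = j := by omega
      subst this
      rw [cc_self, if_pos rfl, div_self (pow_ne_zero _ h0.ne')]
      ring
  have hbig : ∀ i, ((x : ℕ → ℝ) (i + (j + 1))) ^ 2 ≤ (2 ^ j * R ^ j) ^ 2 * ((R * ε) ^ 2) ^ (i + 1) := by
    intro i
    rw [hco, if_neg (by omega), sub_zero]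
    have e1 : ε ^ (i + (j + 1)) / ε ^ j = ε ^ (i + 1) := by
      rw [div_eq_iff (pow_ne_zero _ h0.ne'), ← pow_add]
      congr 1
      ring
    rw [e1, ← sq_abs, abs_mul, abs_of_nonneg (pow_nonneg h0.le (i + 1))]
    have e2 := cc_abs j s (i + (j + 1))
    rw [← hR] at e2
    have e3 : |cc j s (i + (j + 1))| * ε ^ (i + 1) ≤ 2 ^ j * R ^ (i + (j + 1)) * ε ^ (i + 1) :=
      mul_le_mul_of_nonneg_right e2 (by positivity)
    calc (|cc j s (i + (j + 1))| * ε ^ (i + 1)) ^ 2 ≤ (2 ^ j * R ^ (i + (j + 1)) * ε ^ (i + 1)) ^ 2 :=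
          pow_le_pow_left₀ (by positivity) e3 2
      _ = (2 ^ j * R ^ j) ^ 2 * ((R * ε) ^ 2) ^ (i + 1) := by ring
  have hnorm : ‖x‖ ^ 2 = ∑' m, ((x : ℕ → ℝ) m) ^ 2 := by
    rw [← real_inner_self_eq_norm_sq, lp.inner_eq_tsum]
    refine tsum_congr fun m => ?_
    simp [sq]
  have hsum : Summable (fun m => ((x : ℕ → ℝ) m) ^ 2) := by
    have h1 := lp.summable_inner (𝕜 := ℝ) x x
    refine h1.congr fun m => ?_
    simp [sq]
  have hr0 : 0 ≤ (R * ε) ^ 2 := by positivity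
  have hr1 : (R * ε) ^ 2 < 1 := by
    have : 0 ≤ R * ε := by positivity
    nlinarith
  rw [hnorm, ← hsum.sum_add_tsum_nat_add (j + 1)]
  have hz : ∑ i ∈ range (j + 1), ((x : ℕ → ℝ) i) ^ 2 = 0 := by
    refine sum_eq_zero fun i hi => ?_
    rw [hsm i (mem_range.1 hi)]
    ring
  rw [hz, zero_add]
  have hg : HasSum (fun i : ℕ => (2 ^ j * R ^ j) ^ 2 * ((R * ε) ^ 2) ^ (i + 1))
      ((2 ^ j * R ^ j) ^ 2 * ((R * ε) ^ 2 / (1 - (R * ε) ^ 2))) := by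
    have h1 := (hasSum_geometric_of_lt_one hr0 hr1).mul_left ((2 ^ j * R ^ j) ^ 2 * (R * ε) ^ 2)
    have e1 : (fun i : ℕ => (2 ^ j * R ^ j) ^ 2 * ((R * ε) ^ 2) ^ (i + 1)) =
        fun i => (2 ^ j * R ^ j) ^ 2 * (R * ε) ^ 2 * ((R * ε) ^ 2) ^ i := by
      funext i
      ring
    have e2 : (2 ^ j * R ^ j) ^ 2 * ((R * ε) ^ 2 / (1 - (R * ε) ^ 2)) =
        (2 ^ j * R ^ j) ^ 2 * (R * ε) ^ 2 * (1 - (R * ε) ^ 2)⁻¹ := by
      rw [div_eq_mul_inv]
      ring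
    rw [e1, e2]
    exact h1
  rw [← hg.tsum_eq]
  exact ((summable_nat_add_iff (j + 1)).2 hsum).tsum_le_tsum hbig hg.summable

lemma DD_kv_tendsto (j s : ℕ) : Tendsto (fun ε : ℝ => DD j s ε kv) (𝓝[>] 0) (𝓝 (ev j)) := by
  rw [tendsto_iff_norm_sub_tendsto_zero]
  set R : ℝ := ((s + j : ℕ) : ℝ) with hR
  have h1 : Tendsto (fun ε : ℝ => (2 ^ j * R ^ j) ^ 2 * ((R * ε) ^ 2 / (1 - (R * ε) ^ 2)))
      (𝓝[>] 0) (𝓝 0) := by
    have : ContinuousAt (fun ε : ℝ => (2 ^ j * R ^ j) ^ 2 * ((R * ε) ^ 2 / (1 - (R * ε) ^ 2))) 0 := by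
      refine continuousAt_const.mul (ContinuousAt.div (by fun_prop) (by fun_prop) (by simp))
    have h2 := this.tendsto
    simp only [mul_zero, ne_eq, OfNat.ofNat_ne_zero, not_false_eq_true, zero_pow, zero_div] at h2
    exact h2.mono_left nhdsWithin_le_nhds
  have h3 : Tendsto (fun ε : ℝ => ‖DD j s ε kv - ev j‖ ^ 2) (𝓝[>] 0) (𝓝 0) := by
    refine tendsto_of_tendsto_of_tendsto_of_le_of_le' tendsto_const_nhds h1
      (Eventually.of_forall fun _ => by positivity) ?_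
    have h4 : ∀ᶠ ε : ℝ in 𝓝[>] 0, R * ε < 1 := by
      have : Tendsto (fun ε : ℝ => R * ε) (𝓝[>] 0) (𝓝 0) := by
        have h5 : ContinuousAt (fun ε : ℝ => R * ε) 0 := by fun_prop
        have h6 := h5.tendsto
        simp only [mul_zero] at h6
        exact h6.mono_left nhdsWithin_le_nhds
      exact this.eventually_lt_const one_pos
    filter_upwards [h4, self_mem_nhdsWithin] with ε e1 e2
    exact DD_kv_sub_norm e2 e1
  have h7 := h3.sqrt
  rw [Real.sqrt_zero] at h7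
  refine h7.congr fun ε => ?_
  exact Real.sqrt_sq (norm_nonneg _)

/-! ### the vectors v -/

section core

variable {H : Type*} [NormedAddCommGroup H] [InnerProductSpace ℝ H]

/-- the sandwich hypothesis -/
def Sandwich (v : ℝ → H) (δ : ℝ) : Prop :=
  ∀ (ι : Type) [Fintype ι] (a z : ι → ℝ), (∀ i, |z i| < δ) →
    (1 / 2) * ∑ i, ∑ j, a i * a j / (1 - z i * z j) ≤ ‖∑ i, a i • v (z i)‖ ^ 2 ∧
    ‖∑ i, a i • v (z i)‖ ^ 2 ≤ ∑ i, ∑ j, a i * a j / (1 - z i * z j)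

lemma sandwich_lc {v : ℝ → H} {δ : ℝ} (hδ : δ ≤ 1) (hv : Sandwich v δ) (a : ℝ →₀ ℝ)
    (ha : a ∈ Finsupp.supported ℝ ℝ {z : ℝ | |z| < δ}) :
    (1 / 2) * ‖Finsupp.linearCombination ℝ kv a‖ ^ 2 ≤ ‖Finsupp.linearCombination ℝ v a‖ ^ 2 ∧
    ‖Finsupp.linearCombination ℝ v a‖ ^ 2 ≤ ‖Finsupp.linearCombination ℝ kv a‖ ^ 2 := by
  have ha' : ∀ z ∈ a.support, |z| < δ := fun z hz => (Finsupp.mem_supported ℝ a).1 ha hz
  have h1 := hv a.support (fun i => a i) (fun i => (i : ℝ)) (fun i => ha' i i.2)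
  have h2 : ∑ i : a.support, a (i : ℝ) • v (i : ℝ) = Finsupp.linearCombination ℝ v a := by
    rw [Finsupp.linearCombination_apply, Finsupp.sum]
    exact Finset.sum_coe_sort a.support (fun z => a z • v z)
  rw [norm_sq_lc_kv a (fun z hz => lt_of_lt_of_le (ha' z hz) hδ)]
  simp only [h2] at h1
  exact h1

lemma ev_small (C δ : ℝ) (hδ : 0 < δ) : ∀ᶠ ε : ℝ in 𝓝[>] 0, 0 < ε ∧ C * ε < δ := by
  have h5 : ContinuousAt (fun ε : ℝ => C * ε) 0 := by fun_prop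
  have h6 := h5.tendsto
  simp only [mul_zero] at h6
  have h7 := (h6.mono_left (nhdsWithin_le_nhds (s := Set.Ioi 0))).eventually_lt_const hδ
  filter_upwards [h7, self_mem_nhdsWithin] with ε e1 e2
  exact ⟨e2, e1⟩

lemma norm_le_of_sandwich {v : ℝ → H} {δ : ℝ} (hδ : δ ≤ 1) (hv : Sandwich v δ) (a : ℝ →₀ ℝ)
    (ha : a ∈ Finsupp.supported ℝ ℝ {z : ℝ | |z| < δ}) :
    ‖Finsupp.linearCombination ℝ v a‖ ≤ ‖Finsupp.linearCombination ℝ kv a‖ := by
  have := (sandwich_lc hδ hv a ha).2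
  exact le_of_sq_le_sq this (norm_nonneg _)

lemma DD_v_dist {v : ℝ → H} {δ : ℝ} (hδ : δ ≤ 1) (hv : Sandwich v δ) {j s s' : ℕ} {ε ε' : ℝ}
    (h0 : 0 ≤ ε) (h : ((s + j : ℕ) : ℝ) * ε < δ) (h0' : 0 ≤ ε') (h' : ((s' + j : ℕ) : ℝ) * ε' < δ) :
    ‖DD j s ε v - DD j s' ε' v‖ ≤ ‖DD j s ε kv - ev j‖ + ‖DD j s' ε' kv - ev j‖ := by
  have h1 := norm_le_of_sandwich hδ hv (DDf j s ε - DDf j s' ε')
    (Submodule.sub_mem _ (DDf_supp h0 h) (DDf_supp h0' h'))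
  rw [map_sub, map_sub, lc_DDf, lc_DDf, lc_DDf, lc_DDf] at h1
  refine h1.trans ?_
  have : DD j s ε kv - DD j s' ε' kv = (DD j s ε kv - ev j) - (DD j s' ε' kv - ev j) := by abel
  rw [this]
  exact norm_sub_le _ _

lemma exists_limit [CompleteSpace H] {v : ℝ → H} {δ : ℝ} (hδ0 : 0 < δ) (hδ : δ ≤ 1)
    (hv : Sandwich v δ) (j : ℕ) : ∃ d : H, ∀ s, Tendsto (fun ε : ℝ => DD j s ε v) (𝓝[>] 0) (𝓝 d) := by
  have key : ∀ s : ℕ, Tendsto (fun p : ℝ × ℝ => ‖DD j s p.1 v - DD j 0 p.2 v‖)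
      (𝓝[>] 0 ×ˢ 𝓝[>] 0) (𝓝 0) := by
    intro s
    have t1 : Tendsto (fun p : ℝ × ℝ => ‖DD j s p.1 kv - ev j‖ + ‖DD j 0 p.2 kv - ev j‖)
        (𝓝[>] 0 ×ˢ 𝓝[>] 0) (𝓝 (0 + 0)) := by
      refine Tendsto.add ?_ ?_
      · exact (tendsto_iff_norm_sub_tendsto_zero.1 (DD_kv_tendsto j s)).comp tendsto_fst
      · exact (tendsto_iff_norm_sub_tendsto_zero.1 (DD_kv_tendsto j 0)).comp tendsto_snd
    rw [add_zero] at t1
    refine tendsto_of_tendsto_of_tendsto_of_le_of_le' tendsto_const_nhds t1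
      (Eventually.of_forall fun _ => norm_nonneg _) ?_
    have e1 := (ev_small ((s + j : ℕ) : ℝ) δ hδ0).prod_mk (ev_small ((0 + j : ℕ) : ℝ) δ hδ0)
    filter_upwards [e1] with p hp
    exact DD_v_dist hδ hv hp.1.1.le hp.1.2 hp.2.1.le hp.2.2
  have hc : Cauchy (Filter.map (fun ε : ℝ => DD j 0 ε v) (𝓝[>] 0)) := by
    rw [cauchy_map_iff']
    rw [tendsto_uniformity_iff_dist_tendsto_zero]
    refine (key 0).congr fun p => ?_
    rw [dist_eq_norm]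
  obtain ⟨d, hd⟩ := cauchy_map_iff_exists_tendsto.1 hc
  refine ⟨d, fun s => ?_⟩
  -- compare with the difference at base 0 along the diagonal
  have hdiag : Tendsto (fun ε : ℝ => (ε, ε)) (𝓝[>] (0 : ℝ)) (𝓝[>] 0 ×ˢ 𝓝[>] 0) :=
    tendsto_id.prodMk tendsto_id
  have h1 := (key s).comp hdiag
  have h2 : Tendsto (fun ε : ℝ => DD j s ε v - DD j 0 ε v) (𝓝[>] 0) (𝓝 0) :=
    tendsto_zero_iff_norm_tendsto_zero.2 h1
  have h3 := h2.add hd
  simp only [sub_add_cancel, zero_add] at h3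
  exact h3

lemma inner_ev (i j : ℕ) : inner ℝ (ev i) (ev j) = if i = j then (1 : ℝ) else 0 := by
  unfold ev
  rw [lp.inner_single_left, lp.coeFn_single, Pi.single_apply]
  split_ifs <;> simp

lemma norm_sq_sum_ev (n : ℕ) (c : ℕ → ℝ) :
    ‖∑ j ∈ range n, c j • ev j‖ ^ 2 = ∑ j ∈ range n, c j ^ 2 := by
  rw [← real_inner_self_eq_norm_sq, sum_inner]
  refine sum_congr rfl fun i hi => ?_
  rw [inner_sum]
  simp only [real_inner_smul_left, real_inner_smul_right, inner_ev]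
  rw [sum_eq_single i]
  · simp [sq]
  · intro j _ hj
    rw [if_neg (Ne.symm hj)]
    ring
  · intro h
    exact absurd hi h

lemma d_sandwich {v : ℝ → H} {δ : ℝ} (hδ0 : 0 < δ) (hδ : δ ≤ 1) (hv : Sandwich v δ) {d : ℕ → H}
    (hd : ∀ j s, Tendsto (fun ε : ℝ => DD j s ε v) (𝓝[>] 0) (𝓝 (d j))) (n : ℕ) (c : ℕ → ℝ) :
    (1 / 2) * ∑ j ∈ range n, c j ^ 2 ≤ ‖∑ j ∈ range n, c j • d j‖ ^ 2 ∧
    ‖∑ j ∈ range n, c j • d j‖ ^ 2 ≤ ∑ j ∈ range n, c j ^ 2 := by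
  have hk : Tendsto (fun ε : ℝ => ‖∑ j ∈ range n, c j • DD j 0 ε kv‖ ^ 2) (𝓝[>] 0)
      (𝓝 (∑ j ∈ range n, c j ^ 2)) := by
    rw [← norm_sq_sum_ev]
    refine (Tendsto.norm ?_).pow 2
    exact tendsto_finsetSum _ fun j _ => (DD_kv_tendsto j 0).const_smul (c j)
  have hvv : Tendsto (fun ε : ℝ => ‖∑ j ∈ range n, c j • DD j 0 ε v‖ ^ 2) (𝓝[>] 0)
      (𝓝 (‖∑ j ∈ range n, c j • d j‖ ^ 2)) := by
    refine (Tendsto.norm ?_).pow 2
    exact tendsto_finsetSum _ fun j _ => (hd j 0).const_smul (c j)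
  have hev : ∀ᶠ ε : ℝ in 𝓝[>] 0,
      (1 / 2) * ‖∑ j ∈ range n, c j • DD j 0 ε kv‖ ^ 2 ≤ ‖∑ j ∈ range n, c j • DD j 0 ε v‖ ^ 2 ∧
      ‖∑ j ∈ range n, c j • DD j 0 ε v‖ ^ 2 ≤ ‖∑ j ∈ range n, c j • DD j 0 ε kv‖ ^ 2 := by
    filter_upwards [ev_small (n : ℝ) δ hδ0] with ε hε
    have hmem : (∑ j ∈ range n, c j • DDf j 0 ε) ∈ Finsupp.supported ℝ ℝ {z : ℝ | |z| < δ} := by
      refine Submodule.sum_mem _ fun j hj => Submodule.smul_mem _ _ (DDf_supp hε.1.le ?_)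
      have hj' : ((0 + j : ℕ) : ℝ) ≤ n := by
        have := mem_range.1 hj
        exact_mod_cast (by omega : 0 + j ≤ n)
      exact lt_of_le_of_lt (mul_le_mul_of_nonneg_right hj' hε.1.le) hε.2
    have h1 := sandwich_lc hδ hv _ hmem
    rw [map_sum, map_sum] at h1
    simp only [map_smul, lc_DDf] at h1
    exact h1
  constructor
  · exact le_of_tendsto_of_tendsto (hk.const_mul (1 / 2)) hvv (hev.mono fun _ h => h.1)
  · exact le_of_tendsto_of_tendsto hvv hk (hev.mono fun _ h => h.2)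

lemma DD_scale {V : Type*} [AddCommGroup V] [Module ℝ V] (j s : ℕ) {ε r : ℝ} (hr : r ≠ 0)
    (φ : ℝ → V) : DD j s ε (fun z => φ (z / r)) = (1 / r ^ j) • DD j s (ε / r) φ := by
  unfold DD
  rw [smul_smul]
  have h1 : (fun n : ℕ => φ ((n : ℝ) * ε / r)) = fun n : ℕ => φ ((n : ℝ) * (ε / r)) := by
    funext n
    rw [mul_div_assoc]
  rw [h1]
  congr 1
  rw [div_pow]
  rcases eq_or_ne (ε ^ j) 0 with h | h
  · simp [h]
  · have h2 : (j.factorial : ℝ) ≠ 0 := by exact_mod_cast j.factorial_ne_zero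
    have h3 : r ^ j ≠ 0 := pow_ne_zero _ hr
    field_simp

lemma DD_series_tendsto {f : ℝ → ℝ} {F : ℕ → ℝ} {δ : ℝ} (hδ0 : 0 < δ)
    (hf : ∀ z, |z| < δ → HasSum (fun m => F m * z ^ m) (f z)) (j s : ℕ) :
    Tendsto (fun ε : ℝ => DD j s ε f) (𝓝[>] 0) (𝓝 (F j)) := by
  set r : ℝ := δ / 2 with hr
  have hr0 : 0 < r := by positivity
  have hrδ : |r| < δ := by rw [abs_of_pos hr0]; linarith
  have hs : Summable (fun m => ‖F m * r ^ m‖) := (hf r hrδ).summable.norm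
  have hmem1 : Memℓp (fun m : ℕ => F m * r ^ m) 1 := by
    apply memℓp_gen
    refine hs.congr fun m => ?_
    simp
  have hmem2 : Memℓp (fun m : ℕ => F m * r ^ m) 2 := hmem1.of_exponent_ge (by norm_num)
  obtain ⟨G, hG⟩ : ∃ G : lp (fun _ : ℕ => ℝ) 2, ∀ m, (G : ℕ → ℝ) m = F m * r ^ m :=
    ⟨⟨_, hmem2⟩, fun m => rfl⟩
  -- f z = inner G (kv (z / r))
  have hfz : ∀ z, |z| < r → f z = inner ℝ G (kv (z / r)) := by
    intro z hz
    have h1 : |z / r| < 1 := by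
      rw [abs_div, abs_of_pos hr0, div_lt_one hr0]
      exact hz
    rw [lp.inner_eq_tsum]
    have h2 : (fun i : ℕ => inner ℝ ((G : ℕ → ℝ) i) ((kv (z / r) : ℕ → ℝ) i)) = fun i => F i * z ^ i := by
      funext i
      rw [hG, kv_apply h1]
      have h3 : r ^ i ≠ 0 := pow_ne_zero _ hr0.ne'
      simp only [RCLike.inner_apply, conj_trivial]
      rw [div_pow]
      field_simp
    rw [h2]
    exact ((hf z (by linarith [hz, (by rw [hr]; linarith : r < δ)])).tsum_eq).symm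
  let L : lp (fun _ : ℕ => ℝ) 2 →ₗ[ℝ] ℝ := (innerSL ℝ G).toLinearMap
  have hL : ∀ x, L x = inner ℝ G x := fun x => rfl
  -- the difference of f
  have hDD : ∀ᶠ ε : ℝ in 𝓝[>] 0, (1 / r ^ j) * L (DD j s (ε / r) kv) = DD j s ε f := by
    filter_upwards [ev_small ((s + j : ℕ) : ℝ) r hr0] with ε hε
    rw [← DD_map L, ← smul_eq_mul, ← DD_scale j s hr0.ne' (fun z => L (kv z)), DD_eq_sum, DD_eq_sum]
    refine sum_congr rfl fun k hk => ?_
    have hk' : k ≤ j := by simpa [Nat.lt_succ_iff] using hk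
    have h1 : |((s + k : ℕ) : ℝ) * ε| < r := by
      rw [abs_of_nonneg (mul_nonneg (by positivity) hε.1.le)]
      refine lt_of_le_of_lt ?_ hε.2
      exact mul_le_mul_of_nonneg_right (by exact_mod_cast Nat.add_le_add_left hk' s) hε.1.le
    rw [hfz _ h1, hL]
  have hlim : Tendsto (fun ε : ℝ => (1 / r ^ j) * L (DD j s (ε / r) kv)) (𝓝[>] 0)
      (𝓝 ((1 / r ^ j) * L (ev j))) := by
    refine Tendsto.const_mul _ ?_
    have h1 : Tendsto (fun ε : ℝ => ε / r) (𝓝[>] 0) (𝓝[>] 0) := by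
      refine tendsto_nhdsWithin_of_tendsto_nhds_of_eventually_within _ ?_ ?_
      · have h5 : ContinuousAt (fun ε : ℝ => ε / r) 0 := by fun_prop
        have h6 := h5.tendsto
        simp only [zero_div] at h6
        exact h6.mono_left nhdsWithin_le_nhds
      · filter_upwards [self_mem_nhdsWithin] with ε hε
        exact div_pos hε hr0
    exact ((innerSL ℝ G).continuous.tendsto _).comp ((DD_kv_tendsto j s).comp h1)
  have hval : (1 / r ^ j) * L (ev j) = F j := by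
    rw [hL]
    unfold ev
    rw [lp.inner_single_right, hG]
    have h3 : r ^ j ≠ 0 := pow_ne_zero _ hr0.ne'
    simp only [RCLike.inner_apply, conj_trivial]
    field_simp
  rw [hval] at hlim
  exact hlim.congr' hDD

lemma v_mem_span {V : Type*} [AddCommGroup V] [Module ℝ V] (v : ℝ → V) {ε : ℝ} (hε : 0 < ε)
    {n j : ℕ} (hj : j < n) :
    v (((j + 1 : ℕ) : ℝ) * ε) ∈ Submodule.span ℝ (Set.range (fun l : Fin n => DD (l : ℕ) 1 ε v)) := by
  have h1 := shift_eq_sum_fwdDiff_iter 1 (fun m : ℕ => v ((m : ℝ) * ε)) j 1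
  simp only [smul_eq_mul, mul_one] at h1
  rw [show j + 1 = 1 + j by ring, h1]
  refine Submodule.sum_mem _ fun k hk => ?_
  have hk' : k < n := by
    have := mem_range.1 hk
    omega
  have h2 : (fwdDiff 1)^[k] (fun m : ℕ => v ((m : ℝ) * ε)) 1 =
      ((k.factorial : ℝ) * ε ^ k) • DD k 1 ε v := by
    unfold DD
    rw [smul_smul]
    have h3 : (k.factorial : ℝ) * ε ^ k ≠ 0 :=
      mul_ne_zero (by exact_mod_cast k.factorial_ne_zero) (pow_ne_zero _ hε.ne')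
    rw [mul_one_div, div_self h3, one_smul]
  rw [h2]
  refine nsmul_mem (Submodule.smul_mem _ _ ?_) _
  exact Submodule.subset_span ⟨⟨k, hk'⟩, rfl⟩

lemma DD_inner {v : ℝ → H} {Φ : ℝ → ℝ} {γ : H} {ε : ℝ} {n : ℕ}
    (hΦ : ∀ k : ℕ, k ≤ n → Φ ((k : ℝ) * ε) = inner ℝ (v ((k : ℝ) * ε)) γ) {j s : ℕ} (h : s + j ≤ n) :
    DD j s ε Φ = inner ℝ (DD j s ε v) γ := by
  rw [DD_eq_sum, DD_eq_sum, sum_inner]
  refine sum_congr rfl fun k hk => ?_
  have hk' : k ≤ j := by simpa [Nat.lt_succ_iff] using hk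
  rw [hΦ (s + k) (by omega), real_inner_smul_left, smul_eq_mul]

lemma DD_sub_smul {f1 f2 : ℝ → ℝ} {b ε : ℝ} (j s : ℕ) :
    DD j s ε (fun z => f2 z - b * f1 z) = DD j s ε f2 - b * DD j s ε f1 := by
  rw [DD_eq_sum, DD_eq_sum, DD_eq_sum, mul_sum, ← sum_sub_distrib]
  refine sum_congr rfl fun k _ => ?_
  simp only [smul_eq_mul]
  ring

theorem lim_relation {v : ℝ → H} {δ : ℝ} (hδ0 : 0 < δ) (hδ : δ ≤ 1) (hv : Sandwich v δ) {d : ℕ → H}
    (hd : ∀ j s, Tendsto (fun ε : ℝ => DD j s ε v) (𝓝[>] 0) (𝓝 (d j)))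
    {f1 f2 : ℝ → ℝ} {F1 F2 : ℕ → ℝ}
    (hf1 : ∀ z, |z| < δ → HasSum (fun m => F1 m * z ^ m) (f1 z))
    (hf2 : ∀ z, |z| < δ → HasSum (fun m => F2 m * z ^ m) (f2 z))
    {B : ℝ} {n : ℕ} {b : ℝ → ℝ} (hb : Tendsto (fun ε => b ε ^ 2) (𝓝[>] 0) (𝓝 (B ^ 2)))
    (hg : ∀ᶠ ε : ℝ in 𝓝[>] 0, ∃ g : ℕ → ℝ, ∀ k : ℕ, k ≤ n →
      f2 ((k : ℝ) * ε) - b ε * f1 ((k : ℝ) * ε) =
        ∑ j ∈ range n, g j * inner ℝ (v ((k : ℝ) * ε)) (v (((j + 1 : ℕ) : ℝ) * ε)))
    (c : ℕ → ℝ) (hc : ∀ l, l < n → inner ℝ (∑ j ∈ range (n + 1), c j • d j) (d l) = 0) :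
    (∑ j ∈ range (n + 1), c j * F2 j) ^ 2 = B ^ 2 * (∑ j ∈ range (n + 1), c j * F1 j) ^ 2 := by
  -- the Gram matrices
  let G : ℝ → Matrix (Fin n) (Fin n) ℝ := fun ε => Matrix.of fun m l =>
    inner ℝ (DD (m : ℕ) 1 ε v) (DD (l : ℕ) 1 ε v)
  let G0 : Matrix (Fin n) (Fin n) ℝ := Matrix.of fun m l => inner ℝ (d m) (d l)
  let β : ℝ → Fin n → ℝ := fun ε m => DD (m : ℕ) 1 ε f2 - b ε * DD (m : ℕ) 1 ε f1
  let a : ℝ → H := fun ε => ∑ j ∈ range (n + 1), c j • DD j 0 ε v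
  let a0 : H := ∑ j ∈ range (n + 1), c j • d j
  let X : (ℝ → ℝ) → ℝ → ℝ := fun f ε => ∑ j ∈ range (n + 1), c j * DD j 0 ε f
  let R : (ℝ → ℝ) → ℝ → ℝ := fun f ε => ∑ l : Fin n,
    ((G ε).adjugate.mulVec (fun m : Fin n => DD (m : ℕ) 1 ε f)) l * inner ℝ (a ε) (DD (l : ℕ) 1 ε v)
  have hG : Tendsto G (𝓝[>] 0) (𝓝 G0) := by
    refine tendsto_pi_nhds.2 fun m => tendsto_pi_nhds.2 fun l => ?_
    exact (hd m 1).inner (hd l 1)
  have ha : Tendsto a (𝓝[>] 0) (𝓝 a0) :=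
    tendsto_finsetSum _ fun j _ => (hd j 0).const_smul (c j)
  have hdet : Tendsto (fun ε => (G ε).det) (𝓝[>] 0) (𝓝 G0.det) :=
    ((continuous_id.matrix_det).tendsto G0).comp hG
  have hadj : ∀ l m : Fin n, Tendsto (fun ε => (G ε).adjugate l m) (𝓝[>] 0) (𝓝 (G0.adjugate l m)) :=
    fun l m => ((continuous_id.matrix_adjugate.matrix_elem l m).tendsto G0).comp hG
  have hX : ∀ {f : ℝ → ℝ} {F : ℕ → ℝ}, (∀ z, |z| < δ → HasSum (fun m => F m * z ^ m) (f z)) →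
      Tendsto (X f) (𝓝[>] 0) (𝓝 (∑ j ∈ range (n + 1), c j * F j)) := by
    intro f F hf
    exact tendsto_finsetSum _ fun j _ => Tendsto.const_mul _ (DD_series_tendsto hδ0 hf j 0)
  have hR : ∀ {f : ℝ → ℝ} {F : ℕ → ℝ}, (∀ z, |z| < δ → HasSum (fun m => F m * z ^ m) (f z)) →
      Tendsto (R f) (𝓝[>] 0) (𝓝 0) := by
    intro f F hf
    have h0 : Tendsto (R f) (𝓝[>] 0) (𝓝 (∑ l : Fin n,
        (∑ m : Fin n, G0.adjugate l m * F m) * inner ℝ a0 (d l))) := by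
      refine tendsto_finsetSum _ fun l _ => Tendsto.mul ?_ (ha.inner (hd l 1))
      have h1 : Tendsto (fun ε => ∑ m : Fin n, (G ε).adjugate l m * DD (m : ℕ) 1 ε f) (𝓝[>] 0)
          (𝓝 (∑ m : Fin n, G0.adjugate l m * F m)) := by
        refine tendsto_finsetSum _ fun m _ => Tendsto.mul (hadj l m) ?_
        exact DD_series_tendsto hδ0 hf m 1
      exact h1
    have h2 : (∑ l : Fin n, (∑ m : Fin n, G0.adjugate l m * F m) * inner ℝ a0 (d l)) = 0 := by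
      refine sum_eq_zero fun l _ => ?_
      rw [hc l l.2, mul_zero]
    rw [h2] at h0
    exact h0
  -- the identity for small ε
  have hid : ∀ᶠ ε : ℝ in 𝓝[>] 0, (G ε).det * (X f2 ε - b ε * X f1 ε) = R f2 ε - b ε * R f1 ε := by
    filter_upwards [hg, self_mem_nhdsWithin] with ε hgε hε
    have hε' : (0 : ℝ) < ε := hε
    obtain ⟨g, hg'⟩ := hgε
    set γ : H := ∑ j ∈ range n, g j • v (((j + 1 : ℕ) : ℝ) * ε) with hγ
    have hΦ : ∀ k : ℕ, k ≤ n → (fun z => f2 z - b ε * f1 z) ((k : ℝ) * ε) =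
        inner ℝ (v ((k : ℝ) * ε)) γ := by
      intro k hk
      show f2 ((k : ℝ) * ε) - b ε * f1 ((k : ℝ) * ε) = _
      rw [hg' k hk, hγ, inner_sum]
      exact sum_congr rfl fun j _ => by rw [real_inner_smul_right]
    have hmem : γ ∈ Submodule.span ℝ (Set.range (fun l : Fin n => DD (l : ℕ) 1 ε v)) := by
      rw [hγ]
      exact Submodule.sum_mem _ fun j hj => Submodule.smul_mem _ _ (v_mem_span v hε' (mem_range.1 hj))
    obtain ⟨η, hη⟩ := (Submodule.mem_span_range_iff_exists_fun ℝ).1 hmem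
    have e1 : (G ε).mulVec η = β ε := by
      funext m
      have h1 : β ε m = inner ℝ (DD (m : ℕ) 1 ε v) γ := by
        show DD (m : ℕ) 1 ε f2 - b ε * DD (m : ℕ) 1 ε f1 = _
        rw [← DD_sub_smul]
        exact DD_inner hΦ (by have := m.2; omega)
      rw [h1, ← hη, inner_sum]
      simp only [Matrix.mulVec, dotProduct, G, Matrix.of_apply, real_inner_smul_right]
      exact sum_congr rfl fun l _ => by ring
    have e2 : (G ε).adjugate.mulVec (β ε) = (G ε).det • η := by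
      rw [← e1, Matrix.mulVec_mulVec, Matrix.adjugate_mul, Matrix.smul_mulVec, Matrix.one_mulVec]
    have e3 : X f2 ε - b ε * X f1 ε = inner ℝ (a ε) γ := by
      show (∑ j ∈ range (n + 1), c j * DD j 0 ε f2) - b ε * (∑ j ∈ range (n + 1), c j * DD j 0 ε f1) =
        inner ℝ (∑ j ∈ range (n + 1), c j • DD j 0 ε v) γ
      rw [sum_inner, mul_sum, ← sum_sub_distrib]
      refine sum_congr rfl fun j hj => ?_
      have h1 : DD j 0 ε (fun z => f2 z - b ε * f1 z) = inner ℝ (DD j 0 ε v) γ :=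
        DD_inner hΦ (by have := mem_range.1 hj; omega)
      rw [real_inner_smul_left, ← h1, DD_sub_smul]
      ring
    have e4 : R f2 ε - b ε * R f1 ε =
        ∑ l : Fin n, ((G ε).adjugate.mulVec (β ε)) l * inner ℝ (a ε) (DD (l : ℕ) 1 ε v) := by
      show (∑ l : Fin n, _) - b ε * (∑ l : Fin n, _) = _
      rw [mul_sum, ← sum_sub_distrib]
      refine sum_congr rfl fun l _ => ?_
      have h1 : (G ε).adjugate.mulVec (β ε) l =
          (G ε).adjugate.mulVec (fun m : Fin n => DD (m : ℕ) 1 ε f2) l -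
          b ε * (G ε).adjugate.mulVec (fun m : Fin n => DD (m : ℕ) 1 ε f1) l := by
        simp only [Matrix.mulVec, dotProduct, β]
        rw [mul_sum, ← sum_sub_distrib]
        exact sum_congr rfl fun m _ => by ring
      rw [h1]
      ring
    rw [e4, e2, e3, ← hη, inner_sum, mul_sum]
    refine sum_congr rfl fun l _ => ?_
    rw [real_inner_smul_right, Pi.smul_apply, smul_eq_mul]
    ring
  -- the limit
  have hsq : ∀ᶠ ε : ℝ in 𝓝[>] 0, ((G ε).det * X f2 ε - R f2 ε) ^ 2 =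
      b ε ^ 2 * ((G ε).det * X f1 ε - R f1 ε) ^ 2 := by
    filter_upwards [hid] with ε hε
    have h1 : (G ε).det * X f2 ε - R f2 ε = b ε * ((G ε).det * X f1 ε - R f1 ε) := by linarith
    rw [h1, mul_pow]
  have hlimL := ((hdet.mul (hX hf2)).sub (hR hf2)).pow 2
  have hlimR := hb.mul (((hdet.mul (hX hf1)).sub (hR hf1)).pow 2)
  have hfin := tendsto_nhds_unique (hlimL.congr' hsq) hlimR
  have hdet0 : G0.det ≠ 0 := by
    intro h0
    obtain ⟨w, hw0, hw⟩ := Matrix.exists_mulVec_eq_zero_iff.2 h0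
    apply hw0
    let w' : ℕ → ℝ := fun j => if h : j < n then w ⟨j, h⟩ else 0
    have hw' : ∀ l : Fin n, w' l = w l := fun l => by
      show (if h : (l : ℕ) < n then w ⟨l, h⟩ else 0) = w l
      rw [dif_pos l.2]
    have h1 := (d_sandwich hδ0 hδ hv hd n w').1
    have h2 : ‖∑ j ∈ range n, w' j • d j‖ ^ 2 = 0 := by
      rw [← real_inner_self_eq_norm_sq, ← Fin.sum_univ_eq_sum_range (fun j => w' j • d j) n]
      simp only [hw']
      rw [sum_inner]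
      refine sum_eq_zero fun m _ => ?_
      rw [real_inner_smul_left, inner_sum]
      have h3 := congrFun hw m
      simp only [Matrix.mulVec, dotProduct, G0, Matrix.of_apply, Pi.zero_apply] at h3
      have h4 : ∑ i : Fin n, inner ℝ (d m) (w i • d i) = ∑ i : Fin n, inner ℝ (d m) (d i) * w i :=
        sum_congr rfl fun i _ => by rw [real_inner_smul_right]; ring
      rw [h4, h3, mul_zero]
    rw [h2] at h1
    have h5 : ∑ j ∈ range n, w' j ^ 2 = 0 :=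
      le_antisymm (by linarith) (sum_nonneg fun j _ => sq_nonneg _)
    rw [sum_eq_zero_iff_of_nonneg (fun j _ => sq_nonneg _)] at h5
    funext l
    have h6 := h5 l (mem_range.2 l.2)
    rw [hw'] at h6
    exact pow_eq_zero_iff (two_ne_zero) |>.1 h6
  have h7 : G0.det ^ 2 ≠ 0 := pow_ne_zero _ hdet0
  apply mul_left_cancel₀ h7
  simp only [sub_zero] at hfin
  linarith [hfin, mul_pow G0.det (∑ j ∈ range (n + 1), c j * F2 j) 2,
    mul_pow G0.det (∑ j ∈ range (n + 1), c j * F1 j) 2,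
    congrArg (fun t => B ^ 2 * t) (mul_pow G0.det (∑ j ∈ range (n + 1), c j * F1 j) 2)]

lemma mem_span_Iio {d : ℕ → H} {n : ℕ} {x : H} (hx : x ∈ Submodule.span ℝ (d '' Set.Iio n)) :
    ∃ c : ℕ → ℝ, x = ∑ i ∈ range n, c i • d i := by
  rw [← Finset.coe_range] at hx
  obtain ⟨c, hc⟩ := (Submodule.mem_span_image_finset_iff_exists_fun' ℝ).1 hx
  exact ⟨c, hc.symm⟩

lemma gs_repr (d : ℕ → H) (n : ℕ) : ∃ c : ℕ → ℝ, c n = 1 ∧
    InnerProductSpace.gramSchmidt ℝ d n = ∑ i ∈ range (n + 1), c i • d i := by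
  have h1 := InnerProductSpace.gramSchmidt_def ℝ d n
  have h2 : ∑ i ∈ Iio n, (Submodule.span ℝ {InnerProductSpace.gramSchmidt ℝ d i}).starProjection (d n) ∈
      Submodule.span ℝ (d '' Set.Iio n) := by
    rw [← InnerProductSpace.span_gramSchmidt_Iio]
    refine Submodule.sum_mem _ fun k hk => ?_
    simp_rw [Submodule.starProjection_singleton]
    exact Submodule.smul_mem _ _ (Submodule.subset_span ⟨k, Finset.mem_Iio.1 hk, rfl⟩)
  obtain ⟨c, hc⟩ := mem_span_Iio h2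
  refine ⟨fun i => if i = n then 1 else - c i, by simp, ?_⟩
  rw [h1, hc, sum_range_succ]
  simp only [if_true, one_smul]
  rw [sub_eq_add_neg, add_comm, ← sum_neg_distrib]
  congr 1
  refine sum_congr rfl fun i hi => ?_
  rw [if_neg (by have := mem_range.1 hi; omega), neg_smul]

/-- the linear algebra of the sums: F is the functional, q the orthogonalised vectors -/
lemma sum_sandwich {d : ℕ → H} {q : ℕ → H}
    (hsand : ∀ (n : ℕ) (c : ℕ → ℝ), (1 / 2) * ∑ j ∈ range n, c j ^ 2 ≤ ‖∑ j ∈ range n, c j • d j‖ ^ 2 ∧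
      ‖∑ j ∈ range n, c j • d j‖ ^ 2 ≤ ∑ j ∈ range n, c j ^ 2)
    (hq0 : ∀ n, q n ≠ 0) (hqorth : ∀ m n, m ≠ n → inner ℝ (q m) (q n) = 0)
    {c : ℕ → ℕ → ℝ} (hc1 : ∀ n, c n n = 1) (hqc : ∀ n, q n = ∑ i ∈ range (n + 1), c n i • d i)
    (F : ℕ → ℝ) (N : ℕ) :
    ∑ j ∈ range N, F j ^ 2 ≤ ∑ m ∈ range N, ((∑ i ∈ range (m + 1), c m i * F i) / ‖q m‖) ^ 2 ∧
    ∑ m ∈ range N, ((∑ i ∈ range (m + 1), c m i * F i) / ‖q m‖) ^ 2 ≤ 2 * ∑ j ∈ range N, F j ^ 2 := by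
  set val : ℕ → ℝ := fun m => ∑ i ∈ range (m + 1), c m i * F i with hval
  set R : H := ∑ m ∈ range N, (val m / ‖q m‖ ^ 2) • q m with hR
  have hqn : ∀ m, 0 < ‖q m‖ := fun m => norm_pos_iff.2 (hq0 m)
  have hRq : ∀ m, m < N → inner ℝ R (q m) = val m := by
    intro m hm
    rw [hR, sum_inner, sum_eq_single m]
    · rw [real_inner_smul_left, real_inner_self_eq_norm_sq]
      have := (hqn m).ne'
      field_simp
    · intro b _ hb
      rw [real_inner_smul_left, hqorth b m hb, mul_zero]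
    · intro h
      exact absurd (mem_range.2 hm) h
  have hRd : ∀ j, j < N → inner ℝ R (d j) = F j := by
    intro j
    induction j using Nat.strong_induction_on with
    | _ j ih =>
      intro hj
      have h1 := hRq j hj
      rw [hqc j, inner_sum, hval] at h1
      simp only [real_inner_smul_right] at h1
      rw [sum_range_succ, sum_range_succ, hc1 j] at h1
      have h2 : ∑ i ∈ range j, c j i * inner ℝ R (d i) = ∑ i ∈ range j, c j i * F i := by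
        refine sum_congr rfl fun i hi => ?_
        have hi' := mem_range.1 hi
        rw [ih i hi' (by omega)]
      rw [h2] at h1
      linarith
  have hnormR : ‖R‖ ^ 2 = ∑ m ∈ range N, (val m / ‖q m‖) ^ 2 := by
    rw [← real_inner_self_eq_norm_sq]
    nth_rewrite 2 [hR]
    rw [inner_sum]
    refine sum_congr rfl fun m hm => ?_
    rw [real_inner_smul_right, hRq m (mem_range.1 hm)]
    ring
  -- R is a combination of the d
  obtain ⟨ρ, hρ⟩ : ∃ ρ : ℕ → ℝ, R = ∑ i ∈ range N, ρ i • d i := by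
    apply mem_span_Iio
    rw [hR]
    refine Submodule.sum_mem _ fun m hm => Submodule.smul_mem _ _ ?_
    rw [hqc m]
    refine Submodule.sum_mem _ fun i hi => Submodule.smul_mem _ _ (Submodule.subset_span ⟨i, ?_, rfl⟩)
    have h1 := mem_range.1 hm
    have h2 := mem_range.1 hi
    exact Set.mem_Iio.2 (by omega)
  have hS1 : ‖R‖ ^ 2 = ∑ j ∈ range N, ρ j * F j := by
    rw [← real_inner_self_eq_norm_sq]
    nth_rewrite 2 [hρ]
    rw [inner_sum]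
    exact sum_congr rfl fun j hj => by rw [real_inner_smul_right, hRd j (mem_range.1 hj)]
  have hF0 : 0 ≤ ∑ j ∈ range N, F j ^ 2 := sum_nonneg fun _ _ => sq_nonneg _
  rw [← hnormR]
  constructor
  · -- lower bound
    have h1 : ∑ j ∈ range N, F j ^ 2 = inner ℝ R (∑ j ∈ range N, F j • d j) := by
      rw [inner_sum]
      exact sum_congr rfl fun j hj => by rw [real_inner_smul_right, hRd j (mem_range.1 hj), sq]
    have h2 := real_inner_le_norm R (∑ j ∈ range N, F j • d j)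
    have h3 := (hsand N F).2
    rw [← h1] at h2
    have h4 : (∑ j ∈ range N, F j ^ 2) ^ 2 ≤ ‖R‖ ^ 2 * ∑ j ∈ range N, F j ^ 2 := by
      calc (∑ j ∈ range N, F j ^ 2) ^ 2 ≤ (‖R‖ * ‖∑ j ∈ range N, F j • d j‖) ^ 2 :=
            pow_le_pow_left₀ hF0 h2 2
        _ = ‖R‖ ^ 2 * ‖∑ j ∈ range N, F j • d j‖ ^ 2 := by ring
        _ ≤ ‖R‖ ^ 2 * ∑ j ∈ range N, F j ^ 2 := mul_le_mul_of_nonneg_left h3 (by positivity)
    rcases eq_or_lt_of_le hF0 with h5 | h5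
    · rw [← h5]; positivity
    · rw [sq] at h4
      exact le_of_mul_le_mul_right h4 h5
  · -- upper bound
    have h1 := (hsand N ρ).1
    rw [← hρ] at h1
    have h2 : (∑ j ∈ range N, ρ j * F j) ^ 2 ≤ (∑ j ∈ range N, ρ j ^ 2) * ∑ j ∈ range N, F j ^ 2 :=
      Finset.sum_mul_sq_le_sq_mul_sq _ _ _
    rw [← hS1] at h2
    have h3 : (‖R‖ ^ 2) ^ 2 ≤ (2 * ‖R‖ ^ 2) * ∑ j ∈ range N, F j ^ 2 :=
      h2.trans (mul_le_mul_of_nonneg_right (by linarith) hF0)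
    rcases eq_or_lt_of_le (sq_nonneg ‖R‖) with h5 | h5
    · rw [← h5]; positivity
    · have h6 : ‖R‖ ^ 2 * ‖R‖ ^ 2 ≤ ‖R‖ ^ 2 * (2 * ∑ j ∈ range N, F j ^ 2) := by
        calc ‖R‖ ^ 2 * ‖R‖ ^ 2 = (‖R‖ ^ 2) ^ 2 := by ring
          _ ≤ (2 * ‖R‖ ^ 2) * ∑ j ∈ range N, F j ^ 2 := h3
          _ = _ := by ring
      exact le_of_mul_le_mul_left h6 h5

/-- the abstract limit theorem (explicit casts) -/
theorem lim_sums_aux [CompleteSpace H] {v : ℝ → H} {δ : ℝ} (hδ0 : 0 < δ) (hδ : δ ≤ 1)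
    (hv : ∀ (ι : Type) [Fintype ι] (a z : ι → ℝ), (∀ i, |z i| < δ) →
      (1 / 2) * ∑ i, ∑ j, a i * a j / (1 - z i * z j) ≤ ‖∑ i, a i • v (z i)‖ ^ 2 ∧
      ‖∑ i, a i • v (z i)‖ ^ 2 ≤ ∑ i, ∑ j, a i * a j / (1 - z i * z j))
    {f1 f2 : ℝ → ℝ} {F1 F2 : ℕ → ℝ}
    (hf1 : ∀ z, |z| < δ → HasSum (fun m => F1 m * z ^ m) (f1 z))
    (hf2 : ∀ z, |z| < δ → HasSum (fun m => F2 m * z ^ m) (f2 z))
    {B : ℕ → ℝ}
    (hP : ∀ n : ℕ, ∃ b : ℝ → ℝ, Tendsto (fun ε => b ε ^ 2) (𝓝[>] 0) (𝓝 (B n ^ 2)) ∧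
      ∀ᶠ ε : ℝ in 𝓝[>] 0, ∃ g : ℕ → ℝ, ∀ k : ℕ, k ≤ n →
        f2 ((k : ℝ) * ε) - b ε * f1 ((k : ℝ) * ε) =
          ∑ j ∈ range n, g j * inner ℝ (v ((k : ℝ) * ε)) (v (((j + 1 : ℕ) : ℝ) * ε))) :
    ∃ u : ℕ → ℝ, ∀ n : ℕ,
      (∑ j ∈ range n, F1 j ^ 2 ≤ ∑ m ∈ range n, u m ^ 2 ∧
        ∑ m ∈ range n, u m ^ 2 ≤ 2 * ∑ j ∈ range n, F1 j ^ 2) ∧
      (∑ j ∈ range n, F2 j ^ 2 ≤ ∑ m ∈ range n, B m ^ 2 * u m ^ 2 ∧
        ∑ m ∈ range n, B m ^ 2 * u m ^ 2 ≤ 2 * ∑ j ∈ range n, F2 j ^ 2) := by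
  have hv' : Sandwich v δ := hv
  choose d hd using fun j => exists_limit hδ0 hδ hv' j
  have hsand := fun n c => d_sandwich hδ0 hδ hv' hd n c
  have hli : LinearIndependent ℝ d := by
    rw [linearIndependent_iff']
    intro s g hg i hi
    obtain ⟨n, hn⟩ : ∃ n, ∀ j ∈ s, j < n := ⟨s.sup id + 1, fun j hj =>
      Nat.lt_succ_of_le (Finset.le_sup (f := id) hj)⟩
    let g' : ℕ → ℝ := fun j => if j ∈ s then g j else 0
    have h1 : ∑ j ∈ range n, g' j • d j = 0 := by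
      rw [← hg]
      symm
      refine Finset.sum_subset_zero_on_sdiff (fun j hj => mem_range.2 (hn j hj)) ?_ ?_
      · intro j hj
        have : j ∉ s := (Finset.mem_sdiff.1 hj).2
        show (if j ∈ s then g j else 0) • d j = 0
        rw [if_neg this, zero_smul]
      · intro j hj
        show g j • d j = (if j ∈ s then g j else 0) • d j
        rw [if_pos hj]
    have h2 := (hsand n g').1
    rw [h1, norm_zero] at h2
    have h5 : ∑ j ∈ range n, g' j ^ 2 = 0 :=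
      le_antisymm (by nlinarith) (sum_nonneg fun j _ => sq_nonneg _)
    rw [sum_eq_zero_iff_of_nonneg (fun j _ => sq_nonneg _)] at h5
    have h6 := h5 i (mem_range.2 (hn i hi))
    have h7 : g' i = 0 := by simpa using h6
    have h8 : g' i = g i := by
      show (if i ∈ s then g i else 0) = g i
      rw [if_pos hi]
    rw [← h8, h7]
  set q : ℕ → H := InnerProductSpace.gramSchmidt ℝ d with hq
  choose c hc1 hqc using fun n => gs_repr d n
  have hq0 : ∀ n, q n ≠ 0 := fun n => InnerProductSpace.gramSchmidt_ne_zero n hli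
  have hqorth : ∀ m n, m ≠ n → inner ℝ (q m) (q n) = 0 := fun m n h => InnerProductSpace.gramSchmidt_orthogonal ℝ d h
  have hrel : ∀ n, (∑ i ∈ range (n + 1), c n i * F2 i) ^ 2 =
      B n ^ 2 * (∑ i ∈ range (n + 1), c n i * F1 i) ^ 2 := by
    intro n
    obtain ⟨b, hb, hg⟩ := hP n
    refine lim_relation hδ0 hδ hv' hd hf1 hf2 hb hg (c n) ?_
    intro l hl
    rw [← hqc n]
    exact InnerProductSpace.gramSchmidt_inv_triangular ℝ d hl
  refine ⟨fun m => (∑ i ∈ range (m + 1), c m i * F1 i) / ‖q m‖, fun n => ⟨?_, ?_⟩⟩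
  · exact sum_sandwich hsand hq0 hqorth hc1 hqc F1 n
  · have h1 := sum_sandwich hsand hq0 hqorth hc1 hqc F2 n
    have h2 : ∀ m, ((∑ i ∈ range (m + 1), c m i * F2 i) / ‖q m‖) ^ 2 =
        B m ^ 2 * ((∑ i ∈ range (m + 1), c m i * F1 i) / ‖q m‖) ^ 2 := by
      intro m
      rw [div_pow, hrel m, div_pow]
      ring
    simp only [h2] at h1
    exact h1

end core

/-- the abstract limit theorem -/
theorem lim_sums {H : Type*} [NormedAddCommGroup H] [InnerProductSpace ℝ H] [CompleteSpace H]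
    {v : ℝ → H} {del : ℝ} (hdel : 0 < del) (hdel1 : del ≤ 1)
    (hv : ∀ {ι : Type} [Fintype ι] (a z : ι → ℝ), (∀ i, |z i| < del) →
      (1 / 2) * ∑ i, ∑ j, a i * a j / (1 - z i * z j) ≤ ‖∑ i, a i • v (z i)‖ ^ 2 ∧
        ‖∑ i, a i • v (z i)‖ ^ 2 ≤ ∑ i, ∑ j, a i * a j / (1 - z i * z j))
    {f1 f2 : ℝ → ℝ} {F1 F2 : ℕ → ℝ}
    (hf1 : ∀ z, |z| < del → HasSum (fun j => F1 j * z ^ j) (f1 z))
    (hf2 : ∀ z, |z| < del → HasSum (fun j => F2 j * z ^ j) (f2 z))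
    {B : ℕ → ℝ}
    (hP : ∀ n : ℕ, ∃ b : ℝ → ℝ, Tendsto (fun ε => b ε ^ 2) (𝓝[>] 0) (𝓝 (B n ^ 2)) ∧
      ∀ᶠ ε in 𝓝[>] (0 : ℝ), ∃ g : ℕ → ℝ, ∀ k ≤ n, f2 (k * ε) - b ε * f1 (k * ε) =
        ∑ j ∈ range n, g j * inner ℝ (v (k * ε)) (v ((j + 1) * ε))) :
    ∃ u : ℕ → ℝ, ∀ n, (∑ j ∈ range n, F1 j ^ 2 ≤ ∑ m ∈ range n, u m ^ 2 ∧
      ∑ m ∈ range n, u m ^ 2 ≤ 2 * ∑ j ∈ range n, F1 j ^ 2) ∧
      (∑ j ∈ range n, F2 j ^ 2 ≤ ∑ m ∈ range n, B m ^ 2 * u m ^ 2 ∧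
      ∑ m ∈ range n, B m ^ 2 * u m ^ 2 ≤ 2 * ∑ j ∈ range n, F2 j ^ 2) := by
  refine lim_sums_aux hdel hdel1 (fun ι _ a z h => hv a z h) hf1 hf2 ?_
  intro n
  obtain ⟨b, hb, hg⟩ := hP n
  refine ⟨b, hb, ?_⟩
  filter_upwards [hg] with ε hε
  obtain ⟨g, hg⟩ := hε
  refine ⟨g, fun k hk => ?_⟩
  rw [hg k hk]
  push_cast
  rfl

end Ex.P2
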