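import Pool.Agent.Ex.P2Form

/-!
# The node relation: interface between the lattice side and the analysis (helper1)
-/

open Filter Topology Finset Real

namespace Ex.P2

/-- **Interface for the glue.**  For every `n` and all distinct nodes `x 0, …, x (n-1)` close to
`π / 16` and different from it there are coefficients `g` with
`m_*(cos 2y) - b(x) = ∑ j, g j / H(cos 2y, cos 2(x j))` at `y = π/16` and at all nodes
`y = x i`; and `b(x) → B n` as the nodes tend to `π / 16`. -/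
def NodeRel (B : ℕ → ℝ) : Prop :=
  ∀ n : ℕ, ∃ b : (Fin n → ℝ) → ℝ, Tendsto (fun x => b x ^ 2) (𝓝 fun _ => π / 16) (𝓝 (B n ^ 2)) ∧
    ∃ δ > 0, ∀ x : Fin n → ℝ, (∀ i, |x i - π / 16| < δ) → Function.Injective x →
      (∀ i, x i ≠ π / 16) → ∃ g : Fin n → ℝ,
        (P2F.mst (cos (2 * (π / 16))) - b x =
          ∑ j, g j / P2F.H (cos (2 * (π / 16))) (cos (2 * x j))) ∧
        ∀ i, P2F.mst (cos (2 * x i)) - b x = ∑ j, g j / P2F.H (cos (2 * x i)) (cos (2 * x j))

/-- the same along the nodes `xx (k ε)` -/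
def NodeRelE (B : ℕ → ℝ) : Prop :=
  ∀ n : ℕ, ∃ b : ℝ → ℝ, Tendsto (fun ε => b ε ^ 2) (𝓝[>] 0) (𝓝 (B n ^ 2)) ∧ ∀ᶠ ε in 𝓝[>] (0 : ℝ), ∃ g : ℕ → ℝ,
    ∀ k ≤ n, P2F.mst (cos (2 * P2F.xx (k * ε))) - b ε =
      ∑ j ∈ range n, g j / P2F.H (cos (2 * P2F.xx (k * ε))) (cos (2 * P2F.xx ((j + 1) * ε)))

theorem xx_cont : ContinuousAt P2F.xx 0 := by
  unfold P2F.xx P2F.hh
  have h : ContinuousAt (fun t : ℝ => P2F.h0 * (1 + t) / (1 - t)) 0 := by
    apply ContinuousAt.div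
    · fun_prop
    · fun_prop
    · norm_num
  exact continuousAt_const.mul (Real.continuous_arccos.continuousAt.comp h)

theorem xx_inj {s t : ℝ} (hs : |s| < 1 / 20) (ht : |t| < 1 / 20) (h : P2F.xx s = P2F.xx t) :
    s = t := by
  have h1 := P2F.cos_xx hs
  have h2 := P2F.cos_xx ht
  rw [h, h2] at h1
  unfold P2F.hh at h1
  rw [abs_lt] at hs ht
  have h3 := P2F.h0_pos
  have e1 : 1 - t ≠ 0 := by linarith
  have e2 : 1 - s ≠ 0 := by linarith
  rw [div_eq_div_iff e1 e2] at h1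
  have h4 : P2F.h0 * (t - s) = 0 := by linear_combination h1 / 2
  rcases mul_eq_zero.1 h4 with h5 | h5
  · exact absurd h5 h3.ne'
  · linarith

theorem NodeRel.toE {B : ℕ → ℝ} (h : NodeRel B) : NodeRelE B := by
  intro n
  obtain ⟨b, hb, δ, hδ, hx⟩ := h n
  have hlim : Tendsto (fun ε : ℝ => fun i : Fin n => P2F.xx (((i : ℕ) + 1) * ε)) (𝓝[>] 0)
      (𝓝 fun _ => π / 16) := by
    rw [tendsto_pi_nhds]
    intro i
    have h1 : Tendsto (fun ε : ℝ => (((i : ℕ) : ℝ) + 1) * ε) (𝓝[>] 0) (𝓝 0) := by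
      have : Tendsto (fun ε : ℝ => (((i : ℕ) : ℝ) + 1) * ε) (𝓝 0) (𝓝 ((((i : ℕ) : ℝ) + 1) * 0)) :=
        (continuous_const.mul continuous_id).tendsto 0
      rw [mul_zero] at this
      exact this.mono_left nhdsWithin_le_nhds
    have h2 : Tendsto P2F.xx (𝓝 0) (𝓝 (π / 16)) := by
      rw [← P2F.xx_zero]
      exact xx_cont
    exact h2.comp h1
  refine ⟨fun ε => b fun i : Fin n => P2F.xx (((i : ℕ) + 1) * ε), hb.comp hlim, ?_⟩
  have h1 : ∀ᶠ ε in 𝓝[>] (0 : ℝ), ∀ i : Fin n, |P2F.xx (((i : ℕ) + 1) * ε) - π / 16| < δ := by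
    rw [eventually_all]
    intro i
    have := (tendsto_pi_nhds.1 hlim) i
    have h2 := (Metric.tendsto_nhds.1 this) δ hδ
    filter_upwards [h2] with ε hε
    rwa [Real.dist_eq] at hε
  have h2 : ∀ᶠ ε in 𝓝[>] (0 : ℝ), (n : ℝ) * ε < 1 / 20 := by
    have : Tendsto (fun ε : ℝ => (n : ℝ) * ε) (𝓝[>] 0) (𝓝 0) := by
      have : Tendsto (fun ε : ℝ => (n : ℝ) * ε) (𝓝 0) (𝓝 ((n : ℝ) * 0)) :=
        (continuous_const.mul continuous_id).tendsto 0
      rw [mul_zero] at this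
      exact this.mono_left nhdsWithin_le_nhds
    exact this.eventually (gt_mem_nhds (by norm_num))
  filter_upwards [h1, h2, self_mem_nhdsWithin] with ε he1 he2 he3
  have he3' : (0 : ℝ) < ε := he3
  have small : ∀ k : ℕ, k ≤ n → |(k : ℝ) * ε| < 1 / 20 := by
    intro k hk
    have : (k : ℝ) ≤ n := by exact_mod_cast hk
    rw [abs_of_nonneg (by positivity)]
    exact lt_of_le_of_lt (mul_le_mul_of_nonneg_right this he3'.le) he2
  have small' : ∀ i : Fin n, |(((i : ℕ) : ℝ) + 1) * ε| < 1 / 20 := by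
    intro i
    have := small (i + 1) i.2
    push_cast at this
    exact this
  have hinj : Function.Injective (fun i : Fin n => P2F.xx (((i : ℕ) + 1) * ε)) := by
    intro i j hij
    have := xx_inj (small' i) (small' j) hij
    have h3 := mul_right_cancel₀ he3'.ne' this
    have h4 : ((i : ℕ) : ℝ) = (j : ℕ) := by linarith
    exact Fin.ext (by exact_mod_cast h4)
  have hne : ∀ i : Fin n, P2F.xx (((i : ℕ) + 1) * ε) ≠ π / 16 := by
    intro i hi
    rw [← P2F.xx_zero] at hi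
    have := xx_inj (small' i) (by norm_num) hi
    have : 0 < (((i : ℕ) : ℝ) + 1) * ε := by positivity
    linarith
  obtain ⟨g, hg0, hg⟩ := hx _ he1 hinj hne
  refine ⟨fun j => if hj : j < n then g ⟨j, hj⟩ else 0, ?_⟩
  intro k hk
  have hsum : ∀ y : ℝ, ∑ j ∈ range n, (if hj : j < n then g ⟨j, hj⟩ else 0) /
      P2F.H (cos (2 * y)) (cos (2 * P2F.xx (((j : ℕ) + 1) * ε))) =
      ∑ j : Fin n, g j / P2F.H (cos (2 * y)) (cos (2 * P2F.xx (((j : ℕ) + 1) * ε))) := by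
    intro y
    rw [Finset.sum_range]
    refine Finset.sum_congr rfl fun j _ => ?_
    rw [dif_pos j.2]
  rw [hsum]
  rcases Nat.eq_zero_or_pos k with rfl | hkpos
  · rw [Nat.cast_zero, zero_mul, P2F.xx_zero]
    exact hg0
  · have hi : k - 1 < n := by omega
    have := hg ⟨k - 1, hi⟩
    have hcast : (((k - 1 : ℕ) : ℝ) + 1) = k := by
      rw [Nat.cast_sub hkpos]
      push_cast
      ring
    simp only [hcast] at this
    exact this

end Ex.P2
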