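import Pool.Agent.Ex.P2F1
import Pool.Agent.Ex.P2Lim
import Pool.Agent.Ex.P2F2
import Pool.Agent.Ex.P2Fin
import Pool.Agent.Ex.P2Hv
import Pool.Agent.Ex.P2Node

/-!
# The end of the proof: from the node relation to `n^(-1/4)` (helper1)
-/

open Filter Topology Finset Real

namespace Ex.P2

/-- **(P).**  A nonnegative nonincreasing sequence `A` with `A n ^ 2 = B n ^ 2`, where `B`
satisfies the node relation, is of the exact order `n ^ (-1/4)`. -/
theorem main {A B : ℕ → ℝ} (hA0 : ∀ n, 0 ≤ A n) (hA : ∀ m n, m ≤ n → A n ≤ A m)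
    (hAB : ∀ n, A n ^ 2 = B n ^ 2) (hP : NodeRelE B) :
    ∃ C : ℝ, 0 < C ∧ ∀ n : ℕ, 1 ≤ n →
      (n : ℝ) ^ (-(1 / 4) : ℝ) / C ≤ A n ∧ A n ≤ C * (n : ℝ) ^ (-(1 / 4) : ℝ) := by
  obtain ⟨F1, hF1, c1, C1, hc1, hC1, hb1⟩ := coefF1
  obtain ⟨F2, hF2, c2, C2, hc2, hC2, hb2⟩ := coefF2
  have hP' : ∀ n : ℕ, ∃ b : ℝ → ℝ, Tendsto (fun ε => b ε ^ 2) (𝓝[>] 0) (𝓝 (B n ^ 2)) ∧
      ∀ᶠ ε in 𝓝[>] (0 : ℝ), ∃ g : ℕ → ℝ, ∀ k ≤ n, P2F.Fsf (k * ε) - b ε * P2F.F1f (k * ε) =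
        ∑ j ∈ range n, g j * inner ℝ (P2F.vv (k * ε)) (P2F.vv ((j + 1) * ε)) := by
    intro n
    obtain ⟨b, hb, h1⟩ := hP n
    refine ⟨b, hb, ?_⟩
    have h2 : ∀ᶠ ε in 𝓝[>] (0 : ℝ), (n : ℝ) * ε < 1 / 20 := by
      have : Tendsto (fun ε : ℝ => (n : ℝ) * ε) (𝓝[>] 0) (𝓝 0) := by
        have : Tendsto (fun ε : ℝ => (n : ℝ) * ε) (𝓝 0) (𝓝 ((n : ℝ) * 0)) :=
          (continuous_const.mul continuous_id).tendsto 0
        rw [mul_zero] at this
        exact this.mono_left nhdsWithin_le_nhds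
      exact this.eventually (gt_mem_nhds (by norm_num))
    filter_upwards [h1, h2, self_mem_nhdsWithin] with ε he1 he2 he3
    have he3' : (0 : ℝ) < ε := he3
    have small : ∀ k : ℕ, k ≤ n → |(k : ℝ) * ε| < 1 / 20 := by
      intro k hk
      have : (k : ℝ) ≤ n := by exact_mod_cast hk
      rw [abs_of_nonneg (by positivity)]
      exact lt_of_le_of_lt (mul_le_mul_of_nonneg_right this he3'.le) he2
    obtain ⟨g, hg⟩ := he1
    refine ⟨fun j => g j / P2F.gam ((j + 1) * ε), ?_⟩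
    intro k hk
    have hk' := small k hk
    rw [← P2F.gam_F1f hk', ← P2F.gam_mst hk']
    have h3 := hg k hk
    calc P2F.gam (k * ε) * P2F.mst (cos (2 * P2F.xx (k * ε))) - b ε * P2F.gam (k * ε)
        = P2F.gam (k * ε) * (P2F.mst (cos (2 * P2F.xx (k * ε))) - b ε) := by ring
      _ = P2F.gam (k * ε) * ∑ j ∈ range n, g j /
            P2F.H (cos (2 * P2F.xx (k * ε))) (cos (2 * P2F.xx ((j + 1) * ε))) := by rw [h3]
      _ = _ := by
          rw [Finset.mul_sum]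
          refine Finset.sum_congr rfl fun j hj => ?_
          have hj' : |((j : ℝ) + 1) * ε| < 1 / 20 := by
            have := small (j + 1) (Finset.mem_range.1 hj)
            push_cast at this
            exact this
          rw [P2F.inner_vv hk' hj']
          have hg1 := (P2F.gam_pos hj').ne'
          beta_reduce
          generalize P2F.gam (((j : ℝ) + 1) * ε) = G at hg1 ⊢
          generalize P2F.H (cos (2 * P2F.xx ((k : ℝ) * ε))) (cos (2 * P2F.xx (((j : ℝ) + 1) * ε))) = K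
          generalize P2F.gam ((k : ℝ) * ε) = G'
          rw [div_mul_div_comm, show g j * (G' * G) = G * (G' * g j) by ring,
            mul_div_mul_left _ _ hg1, mul_div_assoc]
  obtain ⟨u, hu⟩ := lim_sums (H := MeasureTheory.Lp ℝ 2 (MeasureTheory.volume : MeasureTheory.Measure ℝ))
    (v := P2F.vv) (del := 1 / 20) (by norm_num) (by norm_num)
    (fun a z hz => P2F.hv a z hz)
    (fun z hz => hF1 z (hz.trans (by norm_num))) (fun z hz => hF2 z (hz.trans (by norm_num))) hP'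
  obtain ⟨c, C, hc, hC, hfin⟩ := final_ineq (u := u) (B := A) (F1 := F1) (F2 := F2) hA0 hA
    (fun n => (hu n).1) (fun n => by simpa only [hAB] using (hu n).2) hc1 hC1 hc2 hC2 hb1 hb2
  refine ⟨max C (1 / c), lt_of_lt_of_le hC (le_max_left _ _), ?_⟩
  intro n hn
  have hn0 : (0 : ℝ) < n := by exact_mod_cast hn
  have hp : 0 < (n : ℝ) ^ (-(1 / 4) : ℝ) := Real.rpow_pos_of_pos hn0 _
  obtain ⟨h1, h2⟩ := hfin n hn
  constructor
  · refine le_trans ?_ h1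
    have h3 : 1 / c ≤ max C (1 / c) := le_max_right _ _
    have h4 : 0 < 1 / c := by positivity
    calc (n : ℝ) ^ (-(1 / 4) : ℝ) / max C (1 / c) ≤ (n : ℝ) ^ (-(1 / 4) : ℝ) / (1 / c) :=
          div_le_div_of_nonneg_left hp.le h4 h3
      _ = c * (n : ℝ) ^ (-(1 / 4) : ℝ) := by
          rw [div_div_eq_mul_div, div_one, mul_comm]
  · exact h2.trans (mul_le_mul_of_nonneg_right (le_max_left _ _) hp.le)

theorem main' {A B : ℕ → ℝ} (hA0 : ∀ n, 0 ≤ A n) (hA : ∀ m n, m ≤ n → A n ≤ A m)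
    (hAB : ∀ n, A n ^ 2 = B n ^ 2) (hP : NodeRel B) :
    ∃ C : ℝ, 0 < C ∧ ∀ n : ℕ, 1 ≤ n →
      (n : ℝ) ^ (-(1 / 4) : ℝ) / C ≤ A n ∧ A n ≤ C * (n : ℝ) ^ (-(1 / 4) : ℝ) :=
  main hA0 hA hAB hP.toE

end Ex.P2
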