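import Mathlib
open Finset
namespace Ex.P2

/-- Product form of the generalised binomial coefficients. -/
lemma choose_prod (a : ℝ) (n : ℕ) :
    (n.factorial : ℝ) * Ring.choose (a + n - 1) n = ∏ k ∈ range n, (a + k) := by
  have h := Ring.descPochhammer_eq_factorial_smul_choose (a + n - 1 : ℝ) n
  rw [nsmul_eq_mul] at h
  rw [← h, Polynomial.descPochhammer_smeval_eq_ascPochhammer]
  rw [Polynomial.ascPochhammer_smeval_eq_eval]
  have h1 : (a + n - 1 : ℝ) - n + 1 = a := by ring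
  rw [h1]
  clear h h1
  induction n with
  | zero => simp
  | succ n ih =>
    rw [ascPochhammer_succ_eval, prod_range_succ, ih]

/-- A power series with nonnegative coefficients on the open unit interval. -/
def Rep (a : ℕ → ℝ) (f : ℝ → ℝ) : Prop :=
  (∀ n, 0 ≤ a n) ∧ ∀ t, |t| < 1 → HasSum (fun n => a n * t ^ n) (f t)

lemma binom_hasSum (s t : ℝ) (ht : |t| < 1) :
    HasSum (fun n : ℕ => Ring.choose (s + n - 1) n * t ^ n) ((1 - t) ^ (-s)) := by
  have h := (Real.one_div_one_sub_rpow_hasFPowerSeriesOnBall_zero s).hasSum (y := t)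
    (by simpa [enorm_eq_nnnorm] using! ht)
  have h0 : (0 : ℝ) < 1 - t := by
    have := (abs_lt.mp ht).2
    linarith
  simp only [zero_add] at h
  rw [Real.rpow_neg h0.le, ← one_div]
  refine Eq.mp ?_ h
  congr 1
  funext n
  simp [mul_comm]

/-- For `s > 0`, `(1 - t)^(-s)` has nonnegative Taylor coefficients. -/
lemma rep_rpow_neg {s : ℝ} (hs : 0 ≤ s) :
    Rep (fun n => Ring.choose (s + n - 1) n) (fun t => (1 - t) ^ (-s)) := by
  refine ⟨fun n => ?_, fun t ht => binom_hasSum s t ht⟩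
  have h := choose_prod s n
  have h1 : 0 ≤ ∏ k ∈ range n, (s + k) := prod_nonneg fun k _ => by positivity
  have h2 : (0 : ℝ) < n.factorial := by positivity
  by_contra hc
  push Not at hc
  have := mul_neg_of_pos_of_neg h2 hc
  linarith

/-- `1 - (1 - t)^(1/2)` has nonnegative Taylor coefficients. -/
lemma rep_one_sub_sqrt :
    ∃ a, Rep a (fun t => 1 - (1 - t) ^ (1 / 2 : ℝ)) := by
  refine ⟨fun n => if n = 0 then 0 else - Ring.choose ((-1 / 2 : ℝ) + n - 1) n, fun n => ?_, fun t ht => ?_⟩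
  · rcases n with _ | n
    · simp
    · have h := choose_prod (-1 / 2) (n + 1)
      rw [prod_range_succ'] at h
      have h1 : 0 ≤ ∏ k ∈ range n, ((-1 / 2 : ℝ) + ((k + 1 : ℕ) : ℝ)) := prod_nonneg fun k _ => by
        push_cast
        have : (0 : ℝ) ≤ k := by positivity
        linarith
      have h2 : (0 : ℝ) < (n + 1).factorial := by positivity
      have h3 : (∏ k ∈ range n, ((-1 / 2 : ℝ) + ((k + 1 : ℕ) : ℝ))) * (-1 / 2 + ((0 : ℕ) : ℝ)) ≤ 0 := by
        apply mul_nonpos_of_nonneg_of_nonpos h1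
        norm_num
      simp only [Nat.add_eq_zero_iff, one_ne_zero, and_false, if_false, Left.nonneg_neg_iff]
      by_contra hc
      push Not at hc
      have := mul_pos h2 hc
      linarith
  · have h := binom_hasSum (-1 / 2) t ht
    have h2 := (hasSum_ite_eq (0 : ℕ) (1 : ℝ)).sub h
    have e1 : (-(-1 / 2) : ℝ) = 1 / 2 := by norm_num
    rw [e1] at h2
    refine Eq.mp ?_ h2
    congr 1
    funext n
    rcases n with _ | n
    · simp
    · simp

lemma Rep.summable_abs {a : ℕ → ℝ} {f : ℝ → ℝ} (h : Rep a f) {t : ℝ} (ht : |t| < 1) :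
    Summable (fun n => ‖a n * t ^ n‖) := by
  have h1 := (h.2 |t| (by simpa using ht)).summable
  refine h1.congr fun n => ?_
  rw [Real.norm_eq_abs, abs_mul, abs_pow, abs_of_nonneg (h.1 n)]

lemma Rep.nonneg {a : ℕ → ℝ} {f : ℝ → ℝ} (h : Rep a f) {t : ℝ} (h0 : 0 ≤ t) (ht : t < 1) :
    0 ≤ f t := by
  refine (h.2 t (by rwa [abs_of_nonneg h0])).nonneg fun n => mul_nonneg (h.1 n) (by positivity)

lemma Rep.abs_le {a : ℕ → ℝ} {f : ℝ → ℝ} (h : Rep a f) {t : ℝ} (ht : |t| < 1) :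
    |f t| ≤ f |t| := by
  have h1 := (h.2 |t| (by simpa using ht))
  have h2 := h.2 t ht
  rw [← h1.tsum_eq, ← h2.tsum_eq]
  have h3 : (∑' n, a n * |t| ^ n) = ∑' n, ‖a n * t ^ n‖ := by
    congr 1
    funext n
    rw [Real.norm_eq_abs, abs_mul, abs_pow, abs_of_nonneg (h.1 n)]
  rw [h3, ← Real.norm_eq_abs]
  exact norm_tsum_le_tsum_norm (h.summable_abs ht)

lemma Rep.add {a b : ℕ → ℝ} {f g : ℝ → ℝ} (ha : Rep a f) (hb : Rep b g) :
    Rep (fun n => a n + b n) (fun t => f t + g t) := by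
  refine ⟨fun n => add_nonneg (ha.1 n) (hb.1 n), fun t ht => ?_⟩
  have h := (ha.2 t ht).add (hb.2 t ht)
  refine Eq.mp ?_ h
  congr 1
  funext n
  ring

lemma Rep.smul {a : ℕ → ℝ} {f : ℝ → ℝ} (ha : Rep a f) {c : ℝ} (hc : 0 ≤ c) :
    Rep (fun n => c * a n) (fun t => c * f t) := by
  refine ⟨fun n => mul_nonneg hc (ha.1 n), fun t ht => ?_⟩
  have h := (ha.2 t ht).mul_left c
  refine Eq.mp ?_ h
  congr 1
  funext n
  ring

lemma Rep.mul {a b : ℕ → ℝ} {f g : ℝ → ℝ} (ha : Rep a f) (hb : Rep b g) :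
    Rep (fun n => ∑ kl ∈ antidiagonal n, a kl.1 * b kl.2) (fun t => f t * g t) := by
  refine ⟨fun n => sum_nonneg fun kl _ => mul_nonneg (ha.1 _) (hb.1 _), fun t ht => ?_⟩
  have h := summable_norm_sum_mul_antidiagonal_of_summable_norm (ha.summable_abs ht) (hb.summable_abs ht)
  have h2 := tsum_mul_tsum_eq_tsum_sum_antidiagonal_of_summable_norm (ha.summable_abs ht) (hb.summable_abs ht)
  rw [(ha.2 t ht).tsum_eq, (hb.2 t ht).tsum_eq] at h2
  have h3 := h.of_norm.hasSum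
  rw [← h2] at h3
  refine Eq.mp ?_ h3
  congr 1
  funext n
  rw [sum_mul]
  refine sum_congr rfl fun kl hkl => ?_
  rw [Finset.HasAntidiagonal.mem_antidiagonal] at hkl
  rw [← hkl, pow_add]
  ring

lemma rep_const {c : ℝ} (hc : 0 ≤ c) : Rep (fun n => if n = 0 then c else 0) (fun _ => c) := by
  refine ⟨fun n => by dsimp only; split_ifs <;> simp [hc], fun t _ => ?_⟩
  have h := hasSum_ite_eq (0 : ℕ) c
  refine Eq.mp ?_ h
  congr 1
  funext n
  rcases n with _ | n <;> simp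

lemma rep_id : Rep (fun n => if n = 1 then 1 else 0) (fun t => t) := by
  refine ⟨fun n => by dsimp only; split_ifs <;> simp, fun t _ => ?_⟩
  have h := hasSum_ite_eq (1 : ℕ) t
  refine Eq.mp ?_ h
  congr 1
  funext n
  by_cases hn : n = 1
  · simp [hn]
  · simp [hn]

lemma Rep.pow {a : ℕ → ℝ} {f : ℝ → ℝ} (ha : Rep a f) (k : ℕ) :
    ∃ c, Rep c (fun t => f t ^ k) := by
  induction k with
  | zero => exact ⟨_, by simpa using rep_const zero_le_one⟩
  | succ k ih =>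
    obtain ⟨c, hc⟩ := ih
    exact ⟨_, by simpa [pow_succ] using hc.mul ha⟩

/-- Composition of power series with nonnegative coefficients. -/
lemma Rep.comp {a b : ℕ → ℝ} {f g : ℝ → ℝ} (hb : Rep b g) (ha : Rep a f)
    (h1 : ∀ t, 0 ≤ t → t < 1 → f t < 1) : ∃ c, Rep c (fun t => g (f t)) := by
  choose A hA using fun k => ha.pow k
  have key : ∀ t, |t| < 1 → Summable (fun p : ℕ × ℕ => b p.1 * (A p.1 p.2 * t ^ p.2)) := by
    intro t ht
    have hnn : 0 ≤ fun p : ℕ × ℕ => b p.1 * (A p.1 p.2 * |t| ^ p.2) := fun p =>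
      mul_nonneg (hb.1 _) (mul_nonneg ((hA _).1 _) (by positivity))
    have h2 : Summable (fun p : ℕ × ℕ => b p.1 * (A p.1 p.2 * |t| ^ p.2)) := by
      rw [summable_prod_of_nonneg hnn]
      refine ⟨fun k => ((hA k).2 |t| (by simpa using ht)).summable.mul_left (b k), ?_⟩
      have h3 : ∀ k, ∑' n, b k * (A k n * |t| ^ n) = b k * (f |t|) ^ k := fun k => by
        rw [tsum_mul_left, ((hA k).2 |t| (by simpa using ht)).tsum_eq]
      simp only [h3]
      have h4 := ha.nonneg (abs_nonneg t) ht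
      exact (hb.2 (f |t|) (by rw [abs_of_nonneg h4]; exact h1 _ (abs_nonneg t) ht)).summable
    refine Summable.of_norm (h2.congr fun p => ?_)
    rw [Real.norm_eq_abs, abs_mul, abs_mul, abs_pow, abs_of_nonneg (hb.1 _), abs_of_nonneg ((hA _).1 _)]
  refine ⟨fun n => ∑' k, b k * A k n, fun n => tsum_nonneg fun k => mul_nonneg (hb.1 _) ((hA _).1 _), fun t ht => ?_⟩
  have hs := key t ht
  have hval : HasSum (fun p : ℕ × ℕ => b p.1 * (A p.1 p.2 * t ^ p.2)) (g (f t)) := by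
    have h2 := hs.hasSum
    have h3 := h2.prod_fiberwise (fun k => ((hA k).2 t ht).mul_left (b k))
    have h4 : |f t| < 1 := lt_of_le_of_lt (ha.abs_le ht) (h1 _ (abs_nonneg t) ht)
    have h5 := hb.2 (f t) h4
    rw [← h3.unique h5]
    exact h2
  have hval2 := (Equiv.prodComm ℕ ℕ).hasSum_iff.mpr hval
  have h6 := hval2.prod_fiberwise (g := fun n => (∑' k, b k * A k n) * t ^ n) (fun n => by
    simp only [Function.comp_apply, Equiv.prodComm_apply, Prod.fst_swap, Prod.snd_swap]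
    have h7 : Summable (fun k => b k * (A k n * t ^ n)) := by
      have := ((Equiv.prodComm ℕ ℕ).summable_iff.mpr hs).prod_factor n
      simpa using this
    have h8 := h7.hasSum
    have h9 : ∑' k, b k * (A k n * t ^ n) = (∑' k, b k * A k n) * t ^ n := by
      rw [← tsum_mul_right]
      congr 1
      funext k
      ring
    rw [h9] at h8
    exact h8)
  exact h6

lemma Rep.congr {a : ℕ → ℝ} {f g : ℝ → ℝ} (ha : Rep a f) (h : ∀ t, |t| < 1 → g t = f t) : Rep a g :=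
  ⟨ha.1, fun t ht => by rw [h t ht]; exact ha.2 t ht⟩

lemma Rep.zero {a : ℕ → ℝ} {f : ℝ → ℝ} (h : Rep a f) : f 0 = a 0 := by
  have h3 := (h.2 0 (by simp)).tsum_eq
  rw [tsum_eq_single 0 (fun k hk => by simp [hk])] at h3
  simpa using h3.symm

/-- The tail of a power series with nonnegative coefficients. -/
lemma Rep.head_ge {a : ℕ → ℝ} {f : ℝ → ℝ} (h : Rep a f) {r ρ q : ℝ} (hr0 : 0 ≤ r) (hr1 : r < 1)
    (hρ0 : 0 < ρ) (hρ1 : ρ < 1) (hrρ : r ≤ ρ) (n : ℕ) (hpow : (r / ρ) ^ (n + 1) ≤ q) :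
    f r - q * f ρ ≤ ∑ k ∈ range (n + 1), a k := by
  have hratio0 : 0 ≤ r / ρ := by positivity
  have hratio1 : r / ρ ≤ 1 := by rw [div_le_one hρ0]; exact hrρ
  have hq : 0 ≤ q := le_trans (by positivity) hpow
  have hSr := h.2 r (by rw [abs_of_nonneg hr0]; exact hr1)
  have hSρ := h.2 ρ (by rw [abs_of_nonneg hρ0.le]; exact hρ1)
  have hsplit := hSr.summable.sum_add_tsum_nat_add (n + 1)
  rw [hSr.tsum_eq] at hsplit
  have hhead : ∑ k ∈ range (n + 1), a k * r ^ k ≤ ∑ k ∈ range (n + 1), a k :=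
    sum_le_sum fun k _ => by
      have h1 : r ^ k ≤ 1 := pow_le_one₀ hr0 hr1.le
      have h2 := mul_le_mul_of_nonneg_left h1 (h.1 k)
      linarith
  have h1 : ∀ k, a (k + (n + 1)) * r ^ (k + (n + 1)) ≤
      q * (a (k + (n + 1)) * ρ ^ (k + (n + 1))) := by
    intro k
    have h2 : r ^ (k + (n + 1)) = ρ ^ (k + (n + 1)) * (r / ρ) ^ (k + (n + 1)) := by
      rw [div_pow, mul_div_cancel₀ _ (pow_ne_zero _ hρ0.ne')]
    have h3 : (r / ρ) ^ (k + (n + 1)) ≤ q :=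
      (pow_le_pow_of_le_one hratio0 hratio1 (Nat.le_add_left _ _)).trans hpow
    rw [h2]
    have h4 : 0 ≤ a (k + (n + 1)) * ρ ^ (k + (n + 1)) := mul_nonneg (h.1 _) (by positivity)
    have h5 := mul_le_mul_of_nonneg_left h3 h4
    linarith
  have h5 : Summable (fun k => a (k + (n + 1)) * r ^ (k + (n + 1))) :=
    (summable_nat_add_iff (f := fun k => a k * r ^ k) (n + 1)).mpr hSr.summable
  have h6 : Summable (fun k => a (k + (n + 1)) * ρ ^ (k + (n + 1))) :=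
    (summable_nat_add_iff (f := fun k => a k * ρ ^ k) (n + 1)).mpr hSρ.summable
  have h9 : ∑' k, a (k + (n + 1)) * r ^ (k + (n + 1)) ≤
      ∑' k, q * (a (k + (n + 1)) * ρ ^ (k + (n + 1))) := h5.tsum_le_tsum h1 (h6.mul_left _)
  rw [tsum_mul_left] at h9
  have h7 := hSρ.summable.sum_add_tsum_nat_add (n + 1)
  rw [hSρ.tsum_eq] at h7
  have h8 : 0 ≤ ∑ k ∈ range (n + 1), a k * ρ ^ k :=
    sum_nonneg fun k _ => mul_nonneg (h.1 k) (by positivity)
  have h10 : q * ∑' k, (a (k + (n + 1)) * ρ ^ (k + (n + 1))) ≤ q * f ρ :=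
    mul_le_mul_of_nonneg_left (by linarith) hq
  linarith

/-- Initial sums of the coefficients: lower bound. -/
lemma Rep.tauber_lower {a : ℕ → ℝ} {f : ℝ → ℝ} (h : Rep a f) {s c1 c2 : ℝ} (hs : 0 < s) (hc1 : 0 < c1)
    (hc2 : 0 < c2)
    (hlow : ∀ r, 0 ≤ r → r < 1 → c1 * (1 - r) ^ (-s) ≤ f r)
    (hup : ∀ r, 0 ≤ r → r < 1 → f r ≤ c2 * (1 - r) ^ (-s)) :
    ∃ c : ℝ, 0 < c ∧ ∀ n : ℕ, c * ((n : ℝ) + 1) ^ s ≤ ∑ k ∈ range (n + 1), a k := by
  obtain ⟨L, hL0, hL⟩ : ∃ L : ℝ, 0 < L ∧ c2 * 2 ^ s * Real.exp (-(L / 2)) < c1 := by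
    have h1 : Filter.Tendsto (fun L : ℝ => c2 * 2 ^ s * Real.exp (-(L / 2))) Filter.atTop (nhds (c2 * 2 ^ s * 0)) := by
      apply Filter.Tendsto.const_mul
      apply Real.tendsto_exp_neg_atTop_nhds_zero.comp
      exact Filter.tendsto_id.atTop_div_const (by norm_num)
    rw [mul_zero] at h1
    have h2 := (h1.eventually (gt_mem_nhds hc1)).and (Filter.eventually_gt_atTop 0)
    obtain ⟨L, h3, h4⟩ := h2.exists
    exact ⟨L, h4, h3⟩
  have hLs : 0 < L ^ (-s) := Real.rpow_pos_of_pos hL0 _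
  obtain ⟨δ, hδ⟩ : ∃ δ : ℝ, δ = c1 - c2 * 2 ^ s * Real.exp (-(L / 2)) := ⟨_, rfl⟩
  have hδ0 : 0 < δ := by linarith
  refine ⟨L ^ (-s) * δ, mul_pos hLs hδ0, fun n => ?_⟩
  obtain ⟨m, hm⟩ : ∃ m : ℝ, m = (n : ℝ) + 1 := ⟨_, rfl⟩
  rw [← hm]
  have hm0 : 0 < m := by rw [hm]; positivity
  have hms : 0 < m ^ s := Real.rpow_pos_of_pos hm0 _
  rcases le_or_gt m L with hmL | hmL
  · have h1 : a 0 ≤ ∑ k ∈ range (n + 1), a k :=
      single_le_sum (f := a) (fun k _ => h.1 k) (mem_range.mpr (Nat.succ_pos n))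
    have h2 : f 0 = a 0 := h.zero
    have h3 := hlow 0 le_rfl one_pos
    simp only [sub_zero, Real.one_rpow, mul_one] at h3
    have h4 : L ^ (-s) * m ^ s ≤ 1 := by
      rw [Real.rpow_neg hL0.le, inv_mul_le_iff₀ (Real.rpow_pos_of_pos hL0 _), mul_one]
      exact Real.rpow_le_rpow hm0.le hmL hs.le
    have h5 : 0 < c2 * 2 ^ s * Real.exp (-(L / 2)) := by positivity
    have h6 := mul_le_mul_of_nonneg_right h4 hδ0.le
    linarith
  · obtain ⟨x, hx⟩ : ∃ x : ℝ, x = L / m := ⟨_, rfl⟩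
    have hq : x < 1 := by rw [hx]; exact (div_lt_one hm0).mpr hmL
    have hq0 : 0 < x := by rw [hx]; positivity
    obtain ⟨r, hr⟩ : ∃ r : ℝ, r = 1 - x := ⟨_, rfl⟩
    obtain ⟨ρ, hρ⟩ : ∃ ρ : ℝ, ρ = 1 - x / 2 := ⟨_, rfl⟩
    have hr0 : 0 ≤ r := by linarith
    have hr1 : r < 1 := by linarith
    have hρ0 : 0 < ρ := by linarith
    have hρ1 : ρ < 1 := by linarith
    have hratio : r / ρ ≤ Real.exp (-(x / 2)) := by
      have h1 : r / ρ ≤ 1 - x / 2 := by
        rw [div_le_iff₀ hρ0, hr, hρ]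
        nlinarith [sq_nonneg x]
      have h2 := Real.add_one_le_exp (-(x / 2))
      linarith
    have hratio0 : 0 ≤ r / ρ := by positivity
    have hpow : (r / ρ) ^ (n + 1) ≤ Real.exp (-(L / 2)) := by
      refine (pow_le_pow_left₀ hratio0 hratio _).trans (le_of_eq ?_)
      rw [← Real.exp_nat_mul]
      congr 1
      have h1 : ((n + 1 : ℕ) : ℝ) = m := by rw [hm]; push_cast; rfl
      rw [h1, hx]
      field_simp
    have hmain := h.head_ge hr0 hr1 hρ0 hρ1 (by linarith) n hpow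
    have hl := hlow r hr0 hr1
    have hu := hup ρ hρ0.le hρ1
    have e1 : (1 - r) ^ (-s) = L ^ (-s) * m ^ s := by
      have h1 : 1 - r = L / m := by rw [hr, hx]; ring
      rw [h1, Real.div_rpow hL0.le hm0.le, Real.rpow_neg hm0.le, div_inv_eq_mul]
    have e2 : (1 - ρ) ^ (-s) = 2 ^ s * (L ^ (-s) * m ^ s) := by
      have h1 : 1 - ρ = L / (2 * m) := by rw [hρ, hx]; field_simp; ring
      rw [h1, Real.div_rpow hL0.le (by positivity), Real.mul_rpow (by norm_num) hm0.le,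
        Real.rpow_neg (by norm_num : (0 : ℝ) ≤ 2), Real.rpow_neg hm0.le, div_eq_mul_inv, mul_inv, inv_inv, inv_inv]
      ring
    rw [e1] at hl
    rw [e2] at hu
    have h9 := mul_le_mul_of_nonneg_left hu (Real.exp_pos (-(L / 2))).le
    have h10 : L ^ (-s) * δ * m ^ s =
        c1 * (L ^ (-s) * m ^ s) - Real.exp (-(L / 2)) * (c2 * (2 ^ s * (L ^ (-s) * m ^ s))) := by
      rw [hδ]; ring
    rw [h10]
    linarith

/-- Initial sums of the coefficients: upper bound. -/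
lemma Rep.tauber_upper {a : ℕ → ℝ} {f : ℝ → ℝ} (h : Rep a f) {s c2 : ℝ} (hc2 : 0 < c2)
    (hup : ∀ r, 0 ≤ r → r < 1 → f r ≤ c2 * (1 - r) ^ (-s)) (n : ℕ) :
    ∑ k ∈ range (n + 1), a k ≤ c2 * Real.exp 1 * ((n : ℝ) + 1) ^ s := by
  have hexp : (1 : ℝ) ≤ Real.exp 1 := by
    have := Real.add_one_le_exp (1 : ℝ)
    linarith
  rcases Nat.eq_zero_or_pos n with hn | hn
  · subst hn
    have h2 : f 0 = a 0 := h.zero
    have h3 := hup 0 le_rfl one_pos
    simp only [sub_zero, Real.one_rpow, mul_one] at h3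
    simp only [zero_add, range_one, sum_singleton, Nat.cast_zero, Real.one_rpow, mul_one]
    have h4 := mul_le_mul_of_nonneg_left hexp hc2.le
    linarith
  · obtain ⟨m, hm⟩ : ∃ m : ℝ, m = (n : ℝ) + 1 := ⟨_, rfl⟩
    rw [← hm]
    have hn0 : (0 : ℝ) < n := by exact_mod_cast hn
    have hm0 : 0 < m := by rw [hm]; positivity
    obtain ⟨r, hr⟩ : ∃ r : ℝ, r = n / m := ⟨_, rfl⟩
    have hr0 : 0 < r := by rw [hr]; positivity
    have hr1 : r < 1 := by rw [hr, div_lt_one hm0]; linarith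
    have hpow : Real.exp (-1) ≤ r ^ n := by
      have h1 : Real.exp (-(1 / n)) ≤ r := by
        rw [Real.exp_neg, hr, inv_le_comm₀ (Real.exp_pos _) (by positivity), inv_div]
        have h2 := Real.add_one_le_exp (1 / (n : ℝ))
        have h3 : m / n = 1 / n + 1 := by rw [hm]; field_simp; ring
        rw [h3]
        exact h2
      have h4 : Real.exp (-1) = (Real.exp (-(1 / n))) ^ n := by
        rw [← Real.exp_nat_mul]
        congr 1
        field_simp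
      rw [h4]
      exact pow_le_pow_left₀ (Real.exp_pos _).le h1 n
    have hSr := h.2 r (by rw [abs_of_nonneg hr0.le]; exact hr1)
    have h1 : (∑ k ∈ range (n + 1), a k) * Real.exp (-1) ≤ f r := by
      have h5 : ∑ k ∈ range (n + 1), a k * Real.exp (-1) ≤ ∑ k ∈ range (n + 1), a k * r ^ k := by
        apply sum_le_sum
        intro k hk
        apply mul_le_mul_of_nonneg_left _ (h.1 k)
        apply hpow.trans
        exact pow_le_pow_of_le_one hr0.le hr1.le (Nat.lt_succ_iff.mp (mem_range.mp hk))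
      rw [sum_mul]
      apply h5.trans
      rw [← hSr.tsum_eq]
      exact hSr.summable.sum_le_tsum _ fun k _ => mul_nonneg (h.1 k) (by positivity)
    have h2 := hup r hr0.le hr1
    have e1 : (1 - r) ^ (-s) = m ^ s := by
      have h6 : 1 - r = 1 / m := by rw [hr, hm]; field_simp; ring
      rw [h6, Real.div_rpow zero_le_one hm0.le, Real.one_rpow, Real.rpow_neg hm0.le, one_div, inv_inv]
    rw [e1] at h2
    have h3 : (∑ k ∈ range (n + 1), a k) * Real.exp (-1) * Real.exp 1 ≤ c2 * m ^ s * Real.exp 1 :=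
      mul_le_mul_of_nonneg_right (h1.trans h2) (Real.exp_pos _).le
    rw [mul_assoc, ← Real.exp_add] at h3
    norm_num at h3
    linarith [mul_right_comm c2 (m ^ s) (Real.exp 1)]

/-- A two-sided Tauberian estimate for power series with nonnegative coefficients. -/
theorem Rep.tauber {a : ℕ → ℝ} {f : ℝ → ℝ} (h : Rep a f) {s c1 c2 : ℝ} (hs : 0 < s) (hc1 : 0 < c1)
    (hlow : ∀ r, 0 ≤ r → r < 1 → c1 * (1 - r) ^ (-s) ≤ f r)
    (hup : ∀ r, 0 ≤ r → r < 1 → f r ≤ c2 * (1 - r) ^ (-s)) :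
    ∃ c C : ℝ, 0 < c ∧ 0 < C ∧ ∀ n : ℕ, c * ((n : ℝ) + 1) ^ s ≤ ∑ k ∈ range (n + 1), a k ∧
      ∑ k ∈ range (n + 1), a k ≤ C * ((n : ℝ) + 1) ^ s := by
  have hc2 : 0 < c2 := by
    have h1 := hlow 0 le_rfl one_pos
    have h2 := hup 0 le_rfl one_pos
    simp only [sub_zero, Real.one_rpow, mul_one] at h1 h2
    linarith
  obtain ⟨c, hc, h3⟩ := h.tauber_lower hs hc1 hc2 hlow hup
  exact ⟨c, c2 * Real.exp 1, hc, by positivity, fun n => ⟨h3 n, h.tauber_upper hc2 hup n⟩⟩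

/-- The function `C`, the square of which is `c0^2 (1 - τ t) / (1 - t)`. -/
noncomputable def Cfun (c0 τ t : ℝ) : ℝ := c0 * Real.sqrt ((1 - τ * t) / (1 - t))

/-- `C + 1/...`: positivity of the coefficients of `√(1+C) + C/√(1+C)`. -/
theorem rep_chi {c0 τ : ℝ} (hc0 : 0 < c0) (hτ0 : 0 ≤ τ) (hτ1 : τ < 1) :
    ∃ a, Rep a (fun t => Real.sqrt (1 + Cfun c0 τ t) + Cfun c0 τ t / Real.sqrt (1 + Cfun c0 τ t)) := by
  -- `y = 1 / (1 - τ t)`
  obtain ⟨a1, h1⟩ := (rep_rpow_neg (zero_le_one (α := ℝ))).comp (rep_id.smul hτ0) (fun t h0 h1 => by nlinarith)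
  -- `z = (1 - τ) t / (1 - τ t)`
  have h2 := (rep_id.mul h1).smul (sub_nonneg.mpr hτ1.le)
  obtain ⟨z, hz⟩ : ∃ z : ℝ → ℝ, z = fun t => (1 - τ) * (t * (1 - τ * t) ^ (-1 : ℝ)) := ⟨_, rfl⟩
  have hzR : ∃ a, Rep a z := ⟨_, by rw [hz]; exact h2⟩
  obtain ⟨az, hzR⟩ := hzR
  have hden : ∀ t, |t| < 1 → 0 < 1 - τ * t := by
    intro t ht
    obtain ⟨h3, h4⟩ := abs_lt.mp ht
    nlinarith
  have hz1 : ∀ t, |t| < 1 → 1 - z t = (1 - t) / (1 - τ * t) := by
    intro t ht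
    have := hden t ht
    rw [hz]
    simp only [Real.rpow_neg_one]
    field_simp
    ring
  have hzpos : ∀ t, |t| < 1 → 0 < 1 - z t := by
    intro t ht
    rw [hz1 t ht]
    have := hden t ht
    have := (abs_lt.mp ht).2
    exact div_pos (by linarith) (by linarith)
  have hzlt : ∀ t, 0 ≤ t → t < 1 → z t < 1 := fun t h0 h1 => by
    have := hzpos t (by rwa [abs_of_nonneg h0])
    linarith
  -- `w = 1 - (1 - z)^(1/2)`
  obtain ⟨b1, hb1⟩ := rep_one_sub_sqrt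
  obtain ⟨aw, hwR⟩ := hb1.comp hzR hzlt
  obtain ⟨w, hw⟩ : ∃ w : ℝ → ℝ, w = fun t => 1 - (1 - z t) ^ (1 / 2 : ℝ) := ⟨_, rfl⟩
  have hwR : Rep aw w := by rw [hw]; exact hwR
  have hw1 : ∀ t, |t| < 1 → 0 < 1 - w t := by
    intro t ht
    rw [hw]
    simp only [sub_sub_cancel]
    exact Real.rpow_pos_of_pos (hzpos t ht) _
  have hwlt : ∀ t, 0 ≤ t → t < 1 → w t < 1 := fun t h0 h1 => by
    have := hw1 t (by rwa [abs_of_nonneg h0])
    linarith
  obtain ⟨κ, hκ⟩ : ∃ κ : ℝ, κ = 1 / (1 + c0) := ⟨_, rfl⟩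
  have hκ0 : 0 < κ := by rw [hκ]; positivity
  have hκ1 : κ < 1 := by rw [hκ, div_lt_one (by linarith)]; linarith
  have hkw := hwR.smul hκ0.le
  have hkwlt : ∀ t, 0 ≤ t → t < 1 → κ * w t < 1 := fun t h0 h1 => by
    have := hwlt t h0 h1
    nlinarith
  have hkw1 : ∀ t, |t| < 1 → 0 < 1 - κ * w t := by
    intro t ht
    have := hw1 t ht
    nlinarith
  obtain ⟨a3, h3⟩ := (rep_rpow_neg (zero_le_one (α := ℝ))).comp hkw hkwlt
  -- `z2 = (1 - κ) w / (1 - κ w)`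
  have h4 := (hwR.mul h3).smul (sub_nonneg.mpr hκ1.le)
  obtain ⟨z2, hz2⟩ : ∃ z2 : ℝ → ℝ, z2 = fun t => (1 - κ) * (w t * (1 - κ * w t) ^ (-1 : ℝ)) := ⟨_, rfl⟩
  obtain ⟨az2, hz2R⟩ : ∃ a, Rep a z2 := ⟨_, by rw [hz2]; exact h4⟩
  have hz21 : ∀ t, |t| < 1 → 1 - z2 t = (1 - w t) / (1 - κ * w t) := by
    intro t ht
    have := hkw1 t ht
    rw [hz2]
    simp only [Real.rpow_neg_one]
    field_simp
    ring
  have hz2pos : ∀ t, |t| < 1 → 0 < 1 - z2 t := by
    intro t ht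
    rw [hz21 t ht]
    exact div_pos (hw1 t ht) (hkw1 t ht)
  have hz2lt : ∀ t, 0 ≤ t → t < 1 → z2 t < 1 := fun t h0 h1 => by
    have := hz2pos t (by rwa [abs_of_nonneg h0])
    linarith
  have hhalf : (0 : ℝ) ≤ 1 / 2 := by norm_num
  obtain ⟨a5, h5⟩ := (rep_rpow_neg hhalf).comp hz2R hz2lt
  obtain ⟨a6, h6⟩ := (rep_rpow_neg hhalf).comp hwR hwlt
  obtain ⟨a7, h7⟩ := (rep_rpow_neg hhalf).comp hkw hkwlt
  have h8 := (h5.smul (Real.sqrt_nonneg (1 + c0))).add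
    ((h6.mul h7).smul (c := c0 / Real.sqrt (1 + c0)) (by positivity))
  refine ⟨_, h8.congr fun t ht => ?_⟩
  have hC : Cfun c0 τ t = c0 / (1 - w t) := by
    rw [Cfun, hw]
    simp only [sub_sub_cancel]
    have e1 : (1 - τ * t) / (1 - t) = (1 - z t)⁻¹ := by
      rw [hz1 t ht, inv_div]
    rw [e1, Real.sqrt_inv, ← Real.sqrt_eq_rpow, div_eq_mul_inv]
  have hw1t := hw1 t ht
  have hkt := hkw1 t ht
  have e2 : 1 + Cfun c0 τ t = (1 + c0) * (1 - z2 t)⁻¹ := by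
    rw [hz21 t ht, inv_div, hC]
    have : (1 + c0) * (1 - κ * w t) = 1 - w t + c0 := by
      rw [hκ]
      field_simp
      ring
    field_simp
    linarith
  have hs : ∀ x : ℝ, 0 < x → x ^ (-(1 / 2) : ℝ) = (Real.sqrt x)⁻¹ := fun x hx => by
    rw [Real.rpow_neg hx.le, Real.sqrt_eq_rpow]
  have e3 : Real.sqrt (1 + Cfun c0 τ t) = Real.sqrt (1 + c0) * (1 - z2 t) ^ (-(1 / 2) : ℝ) := by
    rw [e2, Real.sqrt_mul (by positivity), hs _ (hz2pos t ht), Real.sqrt_inv]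
  have e4 : Cfun c0 τ t / Real.sqrt (1 + Cfun c0 τ t) =
      c0 / Real.sqrt (1 + c0) * ((1 - w t) ^ (-(1 / 2) : ℝ) * (1 - κ * w t) ^ (-(1 / 2) : ℝ)) := by
    have s1 : Real.sqrt (1 - w t) * Real.sqrt (1 - w t) = 1 - w t := Real.mul_self_sqrt hw1t.le
    have s2 : 0 < Real.sqrt (1 - w t) := Real.sqrt_pos.mpr hw1t
    have s3 : 0 < Real.sqrt (1 - κ * w t) := Real.sqrt_pos.mpr hkt
    have s4 : 0 < Real.sqrt (1 + c0) := Real.sqrt_pos.mpr (by linarith)
    have s5 : Cfun c0 τ t = c0 / (Real.sqrt (1 - w t) * Real.sqrt (1 - w t)) := by rw [s1, hC]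
    have s6 : Real.sqrt (1 + Cfun c0 τ t) =
        Real.sqrt (1 + c0) * Real.sqrt (1 - κ * w t) / Real.sqrt (1 - w t) := by
      rw [e3, hs _ (hz2pos t ht), hz21 t ht, Real.sqrt_div hw1t.le, inv_div, mul_div_assoc]
    rw [s6, s5, hs _ hw1t, hs _ hkt]
    field_simp
  rw [e4, e3]

end Ex.P2
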