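import Pool.Agent.W47.Numbers
import Pool.Agent.W47.Bridge
import Pool.Agent.HexPoly.FinalP

/-!
Honeycomb lattice: the weight of the critical crossings of a strip of T rows is of order T ^ (-1 / 4)
(statement in elementary terms from the statement for the sums BT).
-/

set_option autoImplicit false

open ENNReal

namespace Ex.HandB

/-- Nearest neighbours of the honeycomb lattice in brick wall coordinates: the sites are `ℤ × ℤ`,
`(x, y)` is joined to `(x + 1, y)`, and to `(x, y + 1)` if `x + y` is even. -/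
def Edge (p q : ℤ × ℤ) : Prop :=
  q = (p.1 + 1, p.2) ∨ p = (q.1 + 1, q.2) ∨
    (q = (p.1, p.2 + 1) ∧ Even (p.1 + p.2)) ∨ (p = (q.1, q.2 + 1) ∧ Even (q.1 + q.2))

/-- `L` lists the sites of a self-avoiding walk in the rows `1, ..., T` that starts at `(0, 1)` and
ends at a site `(b, T)` that is joined to `(b, T + 1)`. -/
def Crossing (T : ℕ) (b : ℤ) (L : List (ℤ × ℤ)) : Prop :=
  L.IsChain Edge ∧ L.Nodup ∧ (∀ p ∈ L, 1 ≤ p.2 ∧ p.2 ≤ T) ∧ L.head? = some (0, 1) ∧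
    L.getLast? = some (b, (T : ℤ)) ∧ Even (b + T)

/-- The critical weight `(2 + sqrt 2) ^ (-n / 2)` of a walk with `n` sites. -/
noncomputable def wt (L : List (ℤ × ℤ)) : ℝ≥0∞ := ENNReal.ofReal ((Real.sqrt (2 + Real.sqrt 2))⁻¹ ^ L.length)

/-- Weight of all the crossings of `T` rows from `(0, 1)`. -/
noncomputable def B (T : ℕ) : ℝ≥0∞ := ∑' b : ℤ, ∑' L : {L // Crossing T b L}, wt L

lemma B_eq {T : ℕ} (hT : 1 ≤ T) : B T = HexObs.BT T := HexObs.CC.B_eq hT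

/-- the statement in elementary terms -/
theorem result_of {c C : ℝ} (h : ∀ T : ℕ, 1 ≤ T → c * (T : ℝ) ^ (-(1 / 4) : ℝ) ≤ (HexObs.BT T).toReal ∧
    (HexObs.BT T).toReal ≤ C * (T : ℝ) ^ (-(1 / 4) : ℝ)) :
    ∀ T : ℕ, 1 ≤ T → ENNReal.ofReal (c * (T : ℝ) ^ (-(1 / 4) : ℝ)) ≤ B T ∧
      B T ≤ ENNReal.ofReal (C * (T : ℝ) ^ (-(1 / 4) : ℝ)) := by
  intro T hT
  rw [B_eq hT]
  obtain ⟨h1, h2⟩ := h T hT
  have hne : HexObs.BT T ≠ ∞ := ne_top_of_le_ne_top one_ne_top (HexObs.BT_le_one hT)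
  constructor
  · exact ENNReal.ofReal_le_of_le_toReal h1
  · exact (ENNReal.le_ofReal_iff_toReal_le hne (le_trans ENNReal.toReal_nonneg h2)).2 h2

end Ex.HandB
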