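import Pool.Agent.Ex.P2Tay
import Pool.Agent.Ex.P2Form
open Finset
namespace Ex.P2

lemma chi_low {c0 τ : ℝ} (hc0 : 0 < c0) (hτ0 : 0 ≤ τ) (hτ1 : τ < 1) {r : ℝ} (h0 : 0 ≤ r) (h1 : r < 1) :
    Real.sqrt (c0 * Real.sqrt (1 - τ)) * (1 - r) ^ (-(1 / 4) : ℝ) ≤
      Real.sqrt (1 + Cfun c0 τ r) + Cfun c0 τ r / Real.sqrt (1 + Cfun c0 τ r) := by
  have hr : 0 < 1 - r := by linarith
  have hC0 : 0 ≤ Cfun c0 τ r := mul_nonneg hc0.le (Real.sqrt_nonneg _)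
  have e1 : (1 - r) ^ (-(1 / 4) : ℝ) = Real.sqrt (Real.sqrt (1 / (1 - r))) := by
    rw [Real.sqrt_eq_rpow, Real.sqrt_eq_rpow, ← Real.rpow_mul (by positivity), one_div (1 - r),
      Real.inv_rpow hr.le, ← Real.rpow_neg hr.le]
    norm_num
  rw [e1, ← Real.sqrt_mul (by positivity)]
  have h2 : c0 * Real.sqrt (1 - τ) * Real.sqrt (1 / (1 - r)) ≤ 1 + Cfun c0 τ r := by
    unfold Cfun
    rw [mul_assoc, ← Real.sqrt_mul (by linarith)]
    have h3 : Real.sqrt ((1 - τ) * (1 / (1 - r))) ≤ Real.sqrt ((1 - τ * r) / (1 - r)) := by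
      apply Real.sqrt_le_sqrt
      rw [mul_one_div]
      apply div_le_div_of_nonneg_right _ hr.le
      nlinarith
    have h4 := mul_le_mul_of_nonneg_left h3 hc0.le
    linarith
  have h5 := Real.sqrt_le_sqrt h2
  have h6 : 0 ≤ Cfun c0 τ r / Real.sqrt (1 + Cfun c0 τ r) := by positivity
  linarith

lemma chi_up {c0 τ : ℝ} (hc0 : 0 < c0) (hτ0 : 0 ≤ τ) (hτ1 : τ < 1) {r : ℝ} (h0 : 0 ≤ r) (h1 : r < 1) :
    Real.sqrt (1 + Cfun c0 τ r) + Cfun c0 τ r / Real.sqrt (1 + Cfun c0 τ r) ≤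
      (2 * Real.sqrt (1 + c0)) * (1 - r) ^ (-(1 / 4) : ℝ) := by
  have hr : 0 < 1 - r := by linarith
  have hC0 : 0 ≤ Cfun c0 τ r := mul_nonneg hc0.le (Real.sqrt_nonneg _)
  have hC1 : 0 < 1 + Cfun c0 τ r := by linarith
  have e1 : (1 - r) ^ (-(1 / 4) : ℝ) = Real.sqrt (Real.sqrt (1 / (1 - r))) := by
    rw [Real.sqrt_eq_rpow, Real.sqrt_eq_rpow, ← Real.rpow_mul (by positivity), one_div (1 - r),
      Real.inv_rpow hr.le, ← Real.rpow_neg hr.le]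
    norm_num
  rw [e1, mul_assoc, ← Real.sqrt_mul (by linarith)]
  have h2 : Cfun c0 τ r / Real.sqrt (1 + Cfun c0 τ r) ≤ Real.sqrt (1 + Cfun c0 τ r) := by
    rw [div_le_iff₀ (Real.sqrt_pos.mpr hC1), Real.mul_self_sqrt hC1.le]
    linarith
  have h3 : 1 + Cfun c0 τ r ≤ (1 + c0) * Real.sqrt (1 / (1 - r)) := by
    have h4 : Cfun c0 τ r ≤ c0 * Real.sqrt (1 / (1 - r)) := by
      unfold Cfun
      apply mul_le_mul_of_nonneg_left _ hc0.le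
      apply Real.sqrt_le_sqrt
      apply div_le_div_of_nonneg_right _ hr.le
      nlinarith
    have h5 : 1 ≤ Real.sqrt (1 / (1 - r)) := by
      rw [Real.one_le_sqrt, le_div_iff₀ hr]
      linarith
    linarith
  have h6 := Real.sqrt_le_sqrt h3
  linarith

lemma rep_geom : Rep (fun _ => 1) (fun t => 1 / (1 - t)) := by
  refine ⟨fun _ => zero_le_one, fun t ht => ?_⟩
  have h := hasSum_geometric_of_abs_lt_one ht
  simpa [one_div] using h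

/-- Initial sums: multiplication by `1 / (1 - t)`. -/
lemma Rep.psums {a : ℕ → ℝ} {f : ℝ → ℝ} (ha : Rep a f) :
    Rep (fun n => ∑ k ∈ range (n + 1), a k) (fun t => f t / (1 - t)) := by
  have h := ha.mul rep_geom
  refine ⟨fun n => sum_nonneg fun k _ => ha.1 k, fun t ht => ?_⟩
  have h2 := h.2 t ht
  simp only [mul_one_div, mul_one] at h2
  simp only
  convert h2 using 3 with n
  rw [Finset.Nat.sum_antidiagonal_eq_sum_range_succ_mk]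

/-- The coefficients `F1` of `f1 = gam` of `Pool.Agent.Ex.P2Form`. -/
theorem F1_coef : ∃ F1 : ℕ → ℝ,
    (∀ t : ℝ, |t| < 1 → HasSum (fun n => F1 n * t ^ n) (P2F.K1 * (P2F.SS t - 1 / P2F.SS t) / (1 - t))) ∧
    (∀ t : ℝ, |t| < 1 / 20 → HasSum (fun n => F1 n * t ^ n) (P2F.gam t)) ∧
    (∃ c C : ℝ, 0 < c ∧ 0 < C ∧ ∀ n : ℕ, c * ((n : ℝ) + 1) ^ (1 / 4 : ℝ) ≤ F1 n ∧
      F1 n ≤ C * ((n : ℝ) + 1) ^ (1 / 4 : ℝ)) ∧
    (∃ c C : ℝ, 0 < c ∧ 0 < C ∧ ∀ n : ℕ, 1 ≤ n → c * (n : ℝ) ^ (3 / 2 : ℝ) ≤ ∑ j ∈ range n, F1 j ^ 2 ∧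
      ∑ j ∈ range n, F1 j ^ 2 ≤ C * (n : ℝ) ^ (3 / 2 : ℝ)) := by
  have h0p := P2F.h0_pos
  have h0l := P2F.h0_lt
  obtain ⟨c0, hc0⟩ : ∃ c0 : ℝ, c0 = Real.sqrt ((1 + P2F.h0) / 2) := ⟨_, rfl⟩
  have hc0p : 0 < c0 := by rw [hc0]; exact Real.sqrt_pos.mpr (by linarith)
  obtain ⟨τ, hτ⟩ : ∃ τ : ℝ, τ = (1 - P2F.h0) / (1 + P2F.h0) := ⟨_, rfl⟩
  have hτ0 : 0 ≤ τ := by rw [hτ]; exact div_nonneg (by linarith) (by linarith)
  have hτ1 : τ < 1 := by rw [hτ, div_lt_one (by linarith)]; linarith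
  obtain ⟨a, ha⟩ := rep_chi hc0p hτ0 hτ1
  have hK := P2F.K1_pos
  have h1 := (ha.smul (c := P2F.K1 / Real.sqrt 2) (by positivity))
  have h2 := h1.psums
  have hform : ∀ t : ℝ, |t| < 1 → P2F.SS t - 1 / P2F.SS t =
      1 / Real.sqrt 2 * (Real.sqrt (1 + Cfun c0 τ t) + Cfun c0 τ t / Real.sqrt (1 + Cfun c0 τ t)) := by
    intro t ht
    obtain ⟨ht1, ht2⟩ := abs_lt.mp ht
    have h3 : 0 < 1 - t := by linarith
    have hC : Real.sqrt (2 + 2 * P2F.hh t) = 2 * Cfun c0 τ t := by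
      unfold Cfun P2F.hh
      rw [hc0, ← Real.sqrt_mul (by linarith)]
      have e1 : (2 : ℝ) = Real.sqrt 4 := by
        rw [show (4 : ℝ) = 2 ^ 2 by norm_num, Real.sqrt_sq (by norm_num)]
      conv_rhs => rw [e1]
      rw [← Real.sqrt_mul (by norm_num)]
      congr 1
      rw [hτ]
      field_simp
      ring
    have hC0 : 0 ≤ Cfun c0 τ t := by
      unfold Cfun
      positivity
    have hS : P2F.SS t = Real.sqrt 2 * Real.sqrt (1 + Cfun c0 τ t) := by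
      unfold P2F.SS
      rw [hC, ← Real.sqrt_mul (by norm_num)]
      congr 1
      ring
    rw [hS]
    have s1 : 0 < Real.sqrt 2 := by positivity
    have s2 : 0 < Real.sqrt (1 + Cfun c0 τ t) := Real.sqrt_pos.mpr (by linarith)
    have s3 : Real.sqrt 2 * Real.sqrt 2 = 2 := Real.mul_self_sqrt (by norm_num)
    have s4 : Real.sqrt (1 + Cfun c0 τ t) * Real.sqrt (1 + Cfun c0 τ t) = 1 + Cfun c0 τ t :=
      Real.mul_self_sqrt (by linarith)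
    obtain ⟨u, hu⟩ : ∃ u : ℝ, u = Real.sqrt (1 + Cfun c0 τ t) := ⟨_, rfl⟩
    obtain ⟨v, hv⟩ : ∃ v : ℝ, v = Real.sqrt 2 := ⟨_, rfl⟩
    have hCu : Cfun c0 τ t = u * u - 1 := by rw [hu, s4]; ring
    rw [← hu] at s2
    rw [← hv] at s1 s3
    rw [← hu, ← hv, hCu]
    field_simp
    linear_combination (u ^ 2) * s3
  obtain ⟨c, C, hc, hC, hbd⟩ := ha.tauber (s := 1 / 4) (by norm_num)
    (c1 := Real.sqrt (c0 * Real.sqrt (1 - τ)))
    (Real.sqrt_pos.mpr (mul_pos hc0p (Real.sqrt_pos.mpr (by linarith))))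
    (fun r h3 h4 => chi_low hc0p hτ0 hτ1 h3 h4) (fun r h3 h4 => chi_up hc0p hτ0 hτ1 h3 h4)
  obtain ⟨F1, hF1⟩ : ∃ F1 : ℕ → ℝ, F1 = fun n => ∑ k ∈ range (n + 1), P2F.K1 / Real.sqrt 2 * a k := ⟨_, rfl⟩
  have hF1e : ∀ n, F1 n = P2F.K1 / Real.sqrt 2 * ∑ k ∈ range (n + 1), a k := fun n => by
    rw [hF1]; simp only [mul_sum]
  obtain ⟨κ, hκ⟩ : ∃ κ : ℝ, κ = P2F.K1 / Real.sqrt 2 := ⟨_, rfl⟩
  have hκ0 : 0 < κ := by rw [hκ]; positivity
  rw [← hκ] at hF1e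
  have hsum : ∀ t : ℝ, |t| < 1 → HasSum (fun n => F1 n * t ^ n) (P2F.K1 * (P2F.SS t - 1 / P2F.SS t) / (1 - t)) := by
    intro t ht
    have h3 := h2.2 t ht
    rw [hform t ht, hF1]
    have e1 : P2F.K1 * (1 / Real.sqrt 2 * (Real.sqrt (1 + Cfun c0 τ t) +
        Cfun c0 τ t / Real.sqrt (1 + Cfun c0 τ t))) = P2F.K1 / Real.sqrt 2 *
        (Real.sqrt (1 + Cfun c0 τ t) + Cfun c0 τ t / Real.sqrt (1 + Cfun c0 τ t)) := by ring
    rw [e1]
    exact h3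
  have hbd2 : ∀ n : ℕ, (κ * c) * ((n : ℝ) + 1) ^ (1 / 4 : ℝ) ≤ F1 n ∧
      F1 n ≤ (κ * C) * ((n : ℝ) + 1) ^ (1 / 4 : ℝ) := by
    intro n
    rw [hF1e n, mul_assoc, mul_assoc]
    exact ⟨mul_le_mul_of_nonneg_left (hbd n).1 hκ0.le, mul_le_mul_of_nonneg_left (hbd n).2 hκ0.le⟩
  refine ⟨F1, hsum, fun t ht => ?_, ⟨κ * c, κ * C, by positivity, by positivity, hbd2⟩, ?_⟩
  · rw [P2F.gam_eq ht]
    exact hsum t (by linarith)
  · obtain ⟨d, hd⟩ : ∃ d : ℝ, d = κ * c := ⟨_, rfl⟩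
    obtain ⟨D, hD⟩ : ∃ D : ℝ, D = κ * C := ⟨_, rfl⟩
    have hd0 : 0 < d := by rw [hd]; positivity
    have hD0 : 0 < D := by rw [hD]; positivity
    rw [← hd, ← hD] at hbd2
    have hsq : ∀ j : ℕ, (((j : ℝ) + 1) ^ (1 / 4 : ℝ)) ^ 2 = Real.sqrt ((j : ℝ) + 1) := by
      intro j
      have : (0 : ℝ) ≤ (j : ℝ) + 1 := by positivity
      rw [← Real.rpow_natCast, ← Real.rpow_mul this, Real.sqrt_eq_rpow]
      norm_num
    have hj1 : ∀ j : ℕ, d ^ 2 * Real.sqrt ((j : ℝ) + 1) ≤ F1 j ^ 2 := by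
      intro j
      rw [← hsq j, ← mul_pow]
      exact pow_le_pow_left₀ (by positivity) (hbd2 j).1 2
    have hj2 : ∀ j : ℕ, F1 j ^ 2 ≤ D ^ 2 * Real.sqrt ((j : ℝ) + 1) := by
      intro j
      rw [← hsq j, ← mul_pow]
      refine pow_le_pow_left₀ (le_trans (by positivity) (hbd2 j).1) (hbd2 j).2 2
    refine ⟨d ^ 2 / 2, D ^ 2, by positivity, by positivity, fun n hn => ?_⟩
    have hn0 : (0 : ℝ) < n := by exact_mod_cast hn
    have e32 : (n : ℝ) ^ (3 / 2 : ℝ) = n * Real.sqrt n := by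
      rw [Real.sqrt_eq_rpow, ← Real.rpow_one_add' hn0.le (by norm_num)]
      norm_num
    have hsn : 0 < Real.sqrt n := Real.sqrt_pos.mpr hn0
    have hss : Real.sqrt n * Real.sqrt n = n := Real.mul_self_sqrt hn0.le
    rw [e32]
    constructor
    · have h5 : ∀ j ∈ range n, ((j : ℝ) + 1) / Real.sqrt n ≤ Real.sqrt ((j : ℝ) + 1) := by
        intro j hj
        have hjn : (j : ℝ) + 1 ≤ n := by exact_mod_cast Nat.succ_le_of_lt (mem_range.mp hj)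
        rw [div_le_iff₀ hsn]
        have h6 : (j : ℝ) + 1 = Real.sqrt ((j : ℝ) + 1) * Real.sqrt ((j : ℝ) + 1) :=
          (Real.mul_self_sqrt (by positivity)).symm
        have h7 := Real.sqrt_le_sqrt hjn
        have h8 : 0 ≤ Real.sqrt ((j : ℝ) + 1) := Real.sqrt_nonneg _
        have h9 := mul_le_mul_of_nonneg_left h7 h8
        linarith
      have h6 : ∑ j ∈ range n, ((j : ℝ) + 1) = n * (n + 1) / 2 := by
        clear h5 hss hsn e32 hn0 hn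
        induction n with
        | zero => simp
        | succ n ih =>
          rw [sum_range_succ, ih]
          push_cast
          ring
      have h7 : (n : ℝ) * Real.sqrt n / 2 ≤ ∑ j ∈ range n, Real.sqrt ((j : ℝ) + 1) := by
        refine le_trans ?_ (sum_le_sum h5)
        rw [← sum_div, h6, le_div_iff₀ hsn]
        have : (n : ℝ) * Real.sqrt n / 2 * Real.sqrt n = n * n / 2 := by
          linear_combination (n / 2 : ℝ) * hss
        rw [this]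
        nlinarith
      have h8 : d ^ 2 * ∑ j ∈ range n, Real.sqrt ((j : ℝ) + 1) ≤ ∑ j ∈ range n, F1 j ^ 2 := by
        rw [mul_sum]
        exact sum_le_sum fun j _ => hj1 j
      have h9 := mul_le_mul_of_nonneg_left h7 (sq_nonneg d)
      linarith
    · have h5 : ∀ j ∈ range n, F1 j ^ 2 ≤ D ^ 2 * Real.sqrt n := by
        intro j hj
        have hjn : (j : ℝ) + 1 ≤ n := by exact_mod_cast Nat.succ_le_of_lt (mem_range.mp hj)
        exact (hj2 j).trans (mul_le_mul_of_nonneg_left (Real.sqrt_le_sqrt hjn) (sq_nonneg D))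
      have h6 := sum_le_sum h5
      rw [sum_const, card_range, nsmul_eq_mul] at h6
      linarith

/-- coefficients of `f1`, in the form used by `P2Main` -/
theorem coefF1 : ∃ F1 : ℕ → ℝ, (∀ z : ℝ, |z| < 1 → HasSum (fun j => F1 j * z ^ j) (P2F.F1f z)) ∧
    ∃ c C : ℝ, 0 < c ∧ 0 < C ∧ ∀ n : ℕ, 1 ≤ n → c * (n : ℝ) ^ (3 / 2 : ℝ) ≤ ∑ j ∈ range n, F1 j ^ 2 ∧
      ∑ j ∈ range n, F1 j ^ 2 ≤ C * (n : ℝ) ^ (3 / 2 : ℝ) := by
  obtain ⟨F1, h1, -, -, h4⟩ := F1_coef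
  exact ⟨F1, h1, h4⟩

end Ex.P2
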